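import Pool.Agent.WRNC.Defs

set_option autoImplicit false

namespace Pool.Agent.WRNC

open Filter Topology Set



variable {I : Type} [LinearOrder I] [WellFoundedLT I]

/-- The recursion. -/
theorem exists_good (Zs : I → ℕ → I)
    (hstep : ∀ (ξ : I) (W : I → (I → Bool) → I → Bool) (Z : ℕ → I)
    (_ : ∀ η < ξ, ∀ s t, Agree η s t → W η s = W η t)
    (_ : ∀ η < ξ, ∀ (s : I → Bool) (ζ : I), ζ < η → ∃ F : Finset I, (∀ κ ∈ F, κ < ζ) ∧
      ∀ ζ' < ζ, (∀ κ ∈ F, ¬ Wrong W s ζ' κ) → Wrong W s ζ' ζ → W η s ζ' = W η s ζ),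
    ∃ v : (I → Bool) → I → Bool,
      (∀ s t, Agree ξ s t → v s = v t) ∧
      (∀ (s : I → Bool) (ζ : I), ζ < ξ → ∃ F : Finset I, (∀ κ ∈ F, κ < ζ) ∧
        ∀ ζ' < ζ, (∀ κ ∈ F, ¬ Wrong W s ζ' κ) → Wrong W s ζ' ζ → v s ζ' = v s ζ) ∧
      (∀ s, (∀ j, Z j < ξ) → (∀ η < ξ, ∀ᶠ j in atTop, ¬ Wrong W s (Z j) η) →
        (∃ᶠ j in atTop, v s (Z j) = true) ∧ (∃ᶠ j in atTop, v s (Z j) = false))) :
    ∃ w : I → (I → Bool) → I → Bool, Good Zs w := by
  classical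
  let H1 : I → (I → (I → Bool) → I → Bool) → Prop := fun ξ W =>
    ∀ η < ξ, ∀ s t, Agree η s t → W η s = W η t
  let H2 : I → (I → (I → Bool) → I → Bool) → Prop := fun ξ W =>
    ∀ η < ξ, ∀ (s : I → Bool) (ζ : I), ζ < η → ∃ F : Finset I, (∀ κ ∈ F, κ < ζ) ∧
      ∀ ζ' < ζ, (∀ κ ∈ F, ¬ Wrong W s ζ' κ) → Wrong W s ζ' ζ → W η s ζ' = W η s ζ
  let step : I → (I → (I → Bool) → I → Bool) → (I → Bool) → I → Bool := fun ξ W =>
    if h : H1 ξ W ∧ H2 ξ W then (hstep ξ W (Zs ξ) h.1 h.2).choose else fun _ _ => false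
  let w : I → (I → Bool) → I → Bool := (wellFounded_lt (α := I)).fix
    (fun ξ rec => step ξ (fun η => if h : η < ξ then rec η h else fun _ _ => false))
  let tr : I → I → (I → Bool) → I → Bool := fun ξ η => if η < ξ then w η else fun _ _ => false
  have hw : ∀ ξ, w ξ = step ξ (tr ξ) := by
    intro ξ
    have := (wellFounded_lt (α := I)).fix_eq
      (fun ξ rec => step ξ (fun η => if h : η < ξ then rec η h else fun _ _ => false)) ξ
    simp only [dite_eq_ite] at this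
    exact this
  have htr : ∀ ξ η, η < ξ → tr ξ η = w η := by
    intro ξ η h
    simp [tr, h]
  have hWr : ∀ ξ s ζ η, η < ξ → (Wrong (tr ξ) s ζ η ↔ Wrong w s ζ η) := by
    intro ξ s ζ η h
    unfold Wrong
    rw [htr ξ η h]
  have main : ∀ ξ, (∀ s t, Agree ξ s t → w ξ s = w ξ t) ∧
      (∀ (s : I → Bool) (ζ : I), ζ < ξ → ∃ F : Finset I, (∀ κ ∈ F, κ < ζ) ∧
        ∀ ζ' < ζ, (∀ κ ∈ F, ¬ Wrong w s ζ' κ) → Wrong w s ζ' ζ → w ξ s ζ' = w ξ s ζ) ∧
      (∀ s, (∀ j, Zs ξ j < ξ) → (∀ η < ξ, ∀ᶠ j in atTop, ¬ Wrong w s (Zs ξ j) η) →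
        (∃ᶠ j in atTop, w ξ s (Zs ξ j) = true) ∧ (∃ᶠ j in atTop, w ξ s (Zs ξ j) = false)) := by
    intro ξ
    induction ξ using WellFoundedLT.induction with
    | ind ξ ih =>
      have h1 : H1 ξ (tr ξ) := by
        intro η hη s t hst
        rw [htr ξ η hη]
        exact (ih η hη).1 s t hst
      have h2 : H2 ξ (tr ξ) := by
        intro η hη s ζ hζ
        obtain ⟨F, hF, hF2⟩ := (ih η hη).2.1 s ζ hζ
        refine ⟨F, hF, ?_⟩
        intro ζ' hζ' hk hwr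
        rw [htr ξ η hη]
        refine hF2 ζ' hζ' ?_ ?_
        · intro κ hκ
          rw [← hWr ξ s ζ' κ (((hF κ hκ).trans hζ).trans hη)]
          exact hk κ hκ
        · rw [← hWr ξ s ζ' ζ (hζ.trans hη)]
          exact hwr
      have e : w ξ = (hstep ξ (tr ξ) (Zs ξ) h1 h2).choose := by
        rw [hw ξ]
        show (if h : H1 ξ (tr ξ) ∧ H2 ξ (tr ξ) then (hstep ξ (tr ξ) (Zs ξ) h.1 h.2).choose
          else fun _ _ => false) = _
        rw [dif_pos ⟨h1, h2⟩]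
      obtain ⟨k1, k2, k3⟩ := (hstep ξ (tr ξ) (Zs ξ) h1 h2).choose_spec
      rw [← e] at k1 k2 k3
      refine ⟨k1, ?_, ?_⟩
      · intro s ζ hζ
        obtain ⟨F, hF, hF2⟩ := k2 s ζ hζ
        refine ⟨F, hF, ?_⟩
        intro ζ' hζ' hk hwr
        refine hF2 ζ' hζ' ?_ ?_
        · intro κ hκ
          rw [hWr ξ s ζ' κ ((hF κ hκ).trans hζ)]
          exact hk κ hκ
        · rw [hWr ξ s ζ' ζ hζ]
          exact hwr
      · intro s hj hη
        refine k3 s hj ?_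
        intro η hηξ
        filter_upwards [hη η hηξ] with j hjw
        rw [hWr ξ s _ η hηξ]
        exact hjw
  exact ⟨w, fun ξ => (main ξ).1, fun ξ => (main ξ).2.1, fun ξ => (main ξ).2.2⟩

end Pool.Agent.WRNC
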