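import Pool.Agent.WRNC.Defs

set_option autoImplicit false

namespace Pool.Agent.WRNC

open Filter Topology Set



/-- the countable ordinals -/
abbrev OmA : Type := (Cardinal.aleph 1 : Cardinal.{0}).ord.ToType

lemma mk_OmA : Cardinal.mk OmA = Cardinal.aleph 1 := Cardinal.mk_ord_toType _

lemma countable_Iio_OmA (a : OmA) : (Iio a).Countable := by
  have h : Cardinal.mk (Iio a) < Cardinal.mk OmA :=
    Cardinal.mk_Iio_lt (α := (Cardinal.aleph 1 : Cardinal.{0}).ord.ToType) a (by simp)
  rw [mk_OmA] at h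
  rwa [← Cardinal.le_aleph0_iff_set_countable, ← Order.lt_succ_iff, Cardinal.succ_aleph0]

lemma countable_Iic_OmA (a : OmA) : (Iic a).Countable := by
  rw [← Iio_union_right]
  exact (countable_Iio_OmA a).union (countable_singleton a)

lemma uncountable_OmA : Uncountable OmA := by
  rw [← not_countable_iff, ← Cardinal.mk_le_aleph0_iff, mk_OmA, not_le]
  exact Cardinal.aleph0_lt_aleph_one

lemma bdd_of_countable_OmA {A : Set OmA} (hA : A.Countable) : ∃ b, ∀ a ∈ A, a < b := by
  have := uncountable_OmA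
  by_contra hcon
  push Not at hcon
  have : (univ : Set OmA) ⊆ ⋃ a ∈ A, Iic a := by
    intro x _
    obtain ⟨a, ha, hx⟩ := hcon x
    exact mem_biUnion ha hx
  exact not_countable_univ ((hA.biUnion fun a _ => countable_Iic_OmA a).mono this)


/-- The index order under the continuum hypothesis. -/
theorem exists_index (hCH : Cardinal.aleph 1 = (Cardinal.continuum : Cardinal.{0})) :
    ∃ (I : Type) (_ : LinearOrder I) (_ : WellFoundedLT I) (Zs : I → ℕ → I), Infinite I ∧
      (∀ ξ : I, (Iio ξ).Countable) ∧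
      (∀ S : Set I, S.Countable → ∃ ξ, ∀ η ∈ S, η < ξ) ∧
      (∀ Z : ℕ → I, ∃ ξ, (∀ j, Z j < ξ) ∧ Zs ξ = Z) := by
  have hunc := uncountable_OmA
  have hc : Cardinal.mk OmA = Cardinal.continuum := by rw [mk_OmA, hCH]
  have hfun : Cardinal.mk (ℕ → OmA) = Cardinal.continuum := by
    rw [Cardinal.mk_pi]
    simp [hc]
  have hprod : Cardinal.mk OmA = Cardinal.mk (OmA × (ℕ → OmA)) := by
    rw [Cardinal.mk_prod, hfun, hc]
    simp
  obtain ⟨e⟩ := Cardinal.eq.1 hprod
  refine ⟨OmA, inferInstance, inferInstance, fun i => (e i).2, ?_, countable_Iio_OmA,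
    fun S hS => bdd_of_countable_OmA hS, ?_⟩
  · exact inferInstance
  · intro Z
    obtain ⟨ξ0, hξ0⟩ := bdd_of_countable_OmA (countable_range Z)
    have h1 : ∃ j : OmA, ¬ (e.symm (j, Z) < ξ0) := by
      by_contra hcon
      push Not at hcon
      have hinj : Function.Injective (fun j : OmA => e.symm (j, Z)) := by
        intro a b hab
        have := e.symm.injective hab
        exact (Prod.ext_iff.1 this).1
      have h2 : (univ : Set OmA).Countable := by
        have h3 : (fun j : OmA => e.symm (j, Z)) ⁻¹' (Iio ξ0) = univ :=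
          eq_univ_of_forall fun j => hcon j
        rw [← h3]
        exact (countable_Iio_OmA ξ0).preimage hinj
      exact not_countable_univ h2
    obtain ⟨j, hj⟩ := h1
    refine ⟨e.symm (j, Z), ?_, ?_⟩
    · intro k
      exact lt_of_lt_of_le (hξ0 _ ⟨k, rfl⟩) (not_lt.1 hj)
    · simp

end Pool.Agent.WRNC
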