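import Pool.Agent.WRNC.Defs

set_option autoImplicit false

namespace Pool.Agent.WRNC

open Filter Topology Set



variable {I : Type} [LinearOrder I] [WellFoundedLT I]

theorem isDel_unique_aux {y s : I → Bool} {ζ ζ' : I} (h : IsDel y s ζ) (h' : IsDel y s ζ') :
    ζ = ζ' := by
  rcases lt_trichotomy ζ ζ' with hlt | heq | hgt
  · exact absurd (h'.1 ζ hlt) h.2
  · exact heq
  · exact absurd (h.1 ζ' hgt) h'.2

theorem exists_hat (w : I → (I → Bool) → I → Bool) :
    ∃ hat : (I → Bool) → I × (I → Bool) → Bool, IsHat w hat := by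
  classical
  refine ⟨fun y γ => if h : ∃ ζ, ζ < γ.1 ∧ IsDel y γ.2 ζ then w γ.1 γ.2 h.choose else y γ.1,
    ?_, ?_⟩
  · intro y ξ s hag
    have hn : ¬ ∃ ζ, ζ < ξ ∧ IsDel y s ζ := by
      rintro ⟨ζ, hζ, hd⟩
      exact hd.2 (hag ζ hζ)
    simp only [dif_neg hn]
  · intro y ξ s ζ hζ hd
    have hex : ∃ ζ, ζ < ξ ∧ IsDel y s ζ := ⟨ζ, hζ, hd⟩
    simp only [dif_pos hex]
    rw [isDel_unique_aux hex.choose_spec.2 hd]

/-- Either `y` and `s` agree below `ξ` or there is a first difference below `ξ`. -/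
theorem agree_or_del (y s : I → Bool) (ξ : I) : Agree ξ y s ∨ ∃ ζ < ξ, IsDel y s ζ := by
  classical
  by_cases h : Agree ξ y s
  · exact Or.inl h
  · right
    unfold Agree at h
    push Not at h
    obtain ⟨η, hη, hne⟩ := h
    have hwf : WellFounded (fun a b : I => a < b) := wellFounded_lt
    have hne' : ({a : I | y a ≠ s a}).Nonempty := ⟨η, hne⟩
    refine ⟨hwf.min {a : I | y a ≠ s a} hne', ?_, ?_, hwf.min_mem _ hne'⟩
    · exact lt_of_le_of_lt (not_lt.1 (hwf.not_lt_min {a : I | y a ≠ s a} hne)) hη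
    · intro b hb
      by_contra hcon
      exact hwf.not_lt_min {a : I | y a ≠ s a} hcon hb

theorem isDel_comm {y s : I → Bool} {ζ : I} : IsDel y s ζ ↔ IsDel s y ζ := by
  constructor
  · intro h
    exact ⟨fun η hη => (h.1 η hη).symm, fun e => h.2 e.symm⟩
  · intro h
    exact ⟨fun η hη => (h.1 η hη).symm, fun e => h.2 e.symm⟩

theorem hat_injective {w : I → (I → Bool) → I → Bool}
    {hat : (I → Bool) → I × (I → Bool) → Bool} (hh : IsHat w hat) :
    Function.Injective hat := by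
  intro y z hyz
  funext ξ
  have hwf : WellFounded (fun a b : I => a < b) := wellFounded_lt
  induction ξ using hwf.induction with
  | _ ξ ih =>
    have h1 : hat y (ξ, y) = y ξ := hh.agree y ξ y (fun _ _ => rfl)
    have h2 : hat z (ξ, y) = z ξ := hh.agree z ξ y (fun η hη => (ih η hη).symm)
    rw [← h1, ← h2, hyz]

/-- two branches through the node `(ρ, t)` have the same value at all nodes outside of the cone
of `(ρ, t)`. -/
theorem hat_eq_of_not_cone {w : I → (I → Bool) → I → Bool}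
    {hat : (I → Bool) → I × (I → Bool) → Bool} (hh : IsHat w hat) {ρ : I} {y t : I → Bool}
    (hyt : Agree ρ y t) {γ : I × (I → Bool)} (hγ : ¬ (ρ ≤ γ.1 ∧ Agree ρ γ.2 t)) :
    hat y γ = hat t γ := by
  obtain ⟨η, s⟩ := γ
  rcases lt_or_ge η ρ with hlt | hge
  · rcases agree_or_del y s η with hag | ⟨ζ, hζ, hd⟩
    · rw [hh.agree y η s hag, hh.agree t η s (fun b hb => by
        rw [← hyt b (hb.trans hlt)]; exact hag b hb)]
      exact hyt η hlt
    · have hd' : IsDel t s ζ := by
        refine ⟨fun b hb => ?_, ?_⟩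
        · rw [← hyt b ((hb.trans hζ).trans hlt)]
          exact hd.1 b hb
        · rw [← hyt ζ (hζ.trans hlt)]
          exact hd.2
      rw [hh.del y η s ζ hζ hd, hh.del t η s ζ hζ hd']
  · rcases agree_or_del s t ρ with hag | ⟨ζ, hζ, hd⟩
    · exact absurd ⟨hge, hag⟩ hγ
    · have hdt : IsDel t s ζ := isDel_comm.1 hd
      have hdy : IsDel y s ζ := by
        refine ⟨fun b hb => ?_, ?_⟩
        · rw [hyt b (hb.trans hζ)]
          exact hdt.1 b hb
        · rw [hyt ζ hζ]
          exact hdt.2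
      rw [hh.del y η s ζ (lt_of_lt_of_le hζ hge) hdy, hh.del t η s ζ (lt_of_lt_of_le hζ hge) hdt]

end Pool.Agent.WRNC
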