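import Pool.Agent.WRNC.Defs

set_option autoImplicit false

namespace Pool.Agent.WRNC

open Filter Topology Set



variable {I : Type} [LinearOrder I] [WellFoundedLT I]

theorem isClosed_range_hat_agree_or (ξ : I) (s t : I → Bool) :
    Agree ξ s t ∨ ∃ ζ < ξ, IsDel s t ζ := by
  by_cases h : ∃ η, η < ξ ∧ s η ≠ t η
  · right
    let S : Set I := {η | η < ξ ∧ s η ≠ t η}
    have hS : S.Nonempty := h
    have hwf : WellFounded (fun a b : I => a < b) := wellFounded_lt
    refine ⟨hwf.min S hS, (hwf.min_mem S hS).1, ?_, (hwf.min_mem S hS).2⟩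
    intro η hη
    by_contra hne
    exact hwf.not_lt_min S (⟨hη.trans (hwf.min_mem S hS).1, hne⟩ : η ∈ S) hη
  · left
    intro η hη
    by_contra hne
    exact h ⟨η, hη, hne⟩

theorem isClosed_range_hat_loc {Zs : I → ℕ → I} {w : I → (I → Bool) → I → Bool} (hw : Good Zs w)
    {hat : (I → Bool) → I × (I → Bool) → Bool} (hh : IsHat w hat) (z : I → Bool) (ξ : I)
    (s t : I → Bool) (h : Agree ξ s t) : hat z (ξ, s) = hat z (ξ, t) := by
  rcases isClosed_range_hat_agree_or ξ z s with h1 | ⟨ζ, hζ, h1⟩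
  · rw [hh.agree z ξ s h1, hh.agree z ξ t (fun η hη => (h1 η hη).trans (h η hη))]
  · have h2 : IsDel z t ζ := by
      refine ⟨fun η hη => (h1.1 η hη).trans (h η (hη.trans hζ)), ?_⟩
      rw [← h ζ hζ]
      exact h1.2
    rw [hh.del z ξ s ζ hζ h1, hh.del z ξ t ζ hζ h2, hw.loc ξ s t h]

theorem isClosed_range_hat_approx {Γ Y : Type} (hat : Y → Γ → Bool) (p : Γ → Bool)
    (hp : p ∈ closure (range hat)) (T : Finset Γ) : ∃ z, ∀ γ ∈ T, hat z γ = p γ := by
  have hopen : IsOpen (Set.pi (T : Set Γ) (fun γ => ({p γ} : Set Bool))) :=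
    isOpen_set_pi (Finset.finite_toSet T) (fun _ _ => isOpen_discrete _)
  obtain ⟨q, hq, ⟨z, rfl⟩⟩ := mem_closure_iff.1 hp _ hopen (fun γ _ => rfl)
  exact ⟨z, fun γ hγ => hq γ hγ⟩

/-- The set of all points `hat y` is closed. Proof: for `p` in the closure define `y` by
well-founded recursion, `y ξ = p (ξ, y restricted below ξ)`. -/
theorem isClosed_range_hat {Zs : I → ℕ → I} {w : I → (I → Bool) → I → Bool} (hw : Good Zs w)
    {hat : (I → Bool) → I × (I → Bool) → Bool} (hh : IsHat w hat) :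
    IsClosed (range hat) := by
  classical
  refine isClosed_of_closure_subset ?_
  intro p hp
  have happ := isClosed_range_hat_approx hat p hp
  have hloc : ∀ ξ s t, Agree ξ s t → p (ξ, s) = p (ξ, t) := by
    intro ξ s t h
    obtain ⟨z, hz⟩ := happ {(ξ, s), (ξ, t)}
    rw [← hz (ξ, s) (by simp), ← hz (ξ, t) (by simp)]
    exact isClosed_range_hat_loc hw hh z ξ s t h
  have hwf : WellFounded (fun a b : I => a < b) := wellFounded_lt
  let y : I → Bool := hwf.fix (fun ξ rec => p (ξ, fun η => if h : η < ξ then rec η h else false))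
  have hy : ∀ ξ, y ξ = p (ξ, y) := by
    intro ξ
    have h1 : y ξ = p (ξ, fun η => if _ : η < ξ then y η else false) := hwf.fix_eq _ _
    rw [h1]
    apply hloc
    intro η hη
    simp [hη]
  refine ⟨y, ?_⟩
  funext ⟨ξ, s⟩
  rcases isClosed_range_hat_agree_or ξ y s with h1 | ⟨ζ, hζ, h1⟩
  · rw [hh.agree y ξ s h1, hy, hloc ξ y s h1]
  · rw [hh.del y ξ s ζ hζ h1]
    obtain ⟨F, hF, hFc⟩ := hw.cont ξ s ζ hζ
    obtain ⟨z, hz⟩ := happ (insert (ξ, s) (insert (ζ, s) (F.image (fun η => (η, s)))))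
    have hzξ : hat z (ξ, s) = p (ξ, s) := hz _ (by simp)
    have hzζ : hat z (ζ, s) ≠ s ζ := by
      rw [hz (ζ, s) (by simp), ← hloc ζ y s h1.1, ← hy]
      exact h1.2
    have hzF : ∀ η ∈ F, hat z (η, s) = s η := by
      intro η hη
      have hηζ : η < ζ := hF η hη
      rw [hz (η, s) (by simp [hη]),
        ← hloc η y s (fun η' hη' => h1.1 η' (hη'.trans hηζ)), ← hy]
      exact h1.1 η hηζ
    rw [← hzξ]
    rcases isClosed_range_hat_agree_or ζ z s with h2 | ⟨ζ', hζ', h2⟩
    · have h3 : IsDel z s ζ := by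
        refine ⟨h2, ?_⟩
        rw [hh.agree z ζ s h2] at hzζ
        exact hzζ
      rw [hh.del z ξ s ζ hζ h3]
    · rw [hh.del z ξ s ζ' (hζ'.trans hζ) h2]
      symm
      apply hFc ζ' hζ'
      · intro η hη hW
        rcases hW with hW | ⟨hW1, hW2⟩
        · have h4 := hzF η hη
          subst hW
          rw [hh.agree z η s h2.1] at h4
          exact h2.2 h4
        · have h4 := hzF η hη
          rw [hh.del z η s ζ' hW1 h2] at h4
          exact hW2 h4
      · right
        refine ⟨hζ', ?_⟩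
        rw [hh.del z ζ s ζ' hζ' h2] at hzζ
        exact hzζ

end Pool.Agent.WRNC
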