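import Pool.Agent.WRNC.Defs

set_option autoImplicit false

namespace Pool.Agent.WRNC

open Filter Topology Set



variable {I : Type} [LinearOrder I] [WellFoundedLT I]

/-- No injective sequence of points `hat (x n)` converges to some `hat y`. -/
theorem hat_no_conv {Zs : I → ℕ → I} (hZs : ∀ Z : ℕ → I, ∃ ξ, (∀ j, Z j < ξ) ∧ Zs ξ = Z)
    {w : I → (I → Bool) → I → Bool} (hw : Good Zs w)
    {hat : (I → Bool) → I × (I → Bool) → Bool} (hh : IsHat w hat)
    (x : ℕ → I → Bool) (hx : Function.Injective x) (y : I → Bool) :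
    ¬ Tendsto (fun n => hat (x n)) atTop (𝓝 (hat y)) := by
  intro hT
  -- eventually x n ≠ y
  obtain ⟨N, hN⟩ : ∃ N, ∀ n, x (n + N) ≠ y := by
    by_cases h : ∃ m, x m = y
    · obtain ⟨m, hm⟩ := h
      refine ⟨m + 1, fun n hn => ?_⟩
      have := hx (hn.trans hm.symm)
      omega
    · push Not at h
      exact ⟨0, fun n => h n⟩
  have hdel : ∀ n, ∃ ζ, IsDel (x (n + N)) y ζ := by
    intro n
    have h1 : ∃ η, x (n + N) η ≠ y η := by
      by_contra h
      push Not at h
      exact hN n (funext h)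
    have hwf : WellFounded (fun a b : I => a < b) := wellFounded_lt
    refine ⟨hwf.min {η | x (n + N) η ≠ y η} h1, ?_, hwf.min_mem {η | x (n + N) η ≠ y η} h1⟩
    intro η hη
    by_contra hne
    exact hwf.not_lt_min {η | x (n + N) η ≠ y η} hne hη
  choose ζ hζ using hdel
  have hT' : Tendsto (fun n => hat (x (n + N))) atTop (𝓝 (hat y)) :=
    hT.comp (tendsto_add_atTop_nat N)
  have hev : ∀ η, ∀ᶠ n in atTop, hat (x (n + N)) (η, y) = y η := by
    intro η
    have h1 := (tendsto_pi_nhds.1 hT') (η, y)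
    rw [hh.agree y η y (fun _ _ => rfl)] at h1
    have h2 : ({y η} : Set Bool) ∈ 𝓝 (y η) := by
      rw [nhds_discrete]; simp
    filter_upwards [h1 h2] with n hn
    exact hn
  obtain ⟨ξ, hξ, hξZ⟩ := hZs ζ
  have hcond : ∀ η < ξ, ∀ᶠ j in atTop, ¬ Wrong w y (Zs ξ j) η := by
    intro η _
    rw [hξZ]
    filter_upwards [hev η] with j hj hW
    rcases hW with hW | ⟨hW1, hW2⟩
    · have h1 : hat (x (j + N)) (η, y) = x (j + N) η := by
        apply hh.agree
        rw [hW]
        exact (hζ j).1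
      have h2 := (hζ j).2
      rw [← hW] at h2
      exact h2 (h1.symm.trans hj)
    · have h1 := hh.del (x (j + N)) η y (ζ j) hW1 (hζ j)
      exact hW2 (h1.symm.trans hj)
  obtain ⟨hf1, hf2⟩ := hw.split ξ y (by rw [hξZ]; exact hξ) hcond
  rw [hξZ] at hf1 hf2
  have hc : ∀ᶠ j in atTop, w ξ y (ζ j) = y ξ := by
    filter_upwards [hev ξ] with j hj
    exact (hh.del (x (j + N)) ξ y (ζ j) (hξ j) (hζ j)).symm.trans hj
  obtain ⟨j1, hj1, hj1'⟩ := (hf1.and_eventually hc).exists
  obtain ⟨j2, hj2, hj2'⟩ := (hf2.and_eventually hc).exists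
  rw [hj1] at hj1'
  rw [hj2, ← hj1'] at hj2'
  exact Bool.false_ne_true hj2'

end Pool.Agent.WRNC
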