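import Pool.Agent.WRNC.Defs

set_option autoImplicit false

namespace Pool.Agent.WRNC

open Filter Topology Set



/-- Countably many bounded real sequences have a common subsequence along which all of them
converge. -/
theorem diag_real {ι : Type} [Countable ι] (f : ι → ℕ → ℝ) (hb : ∀ i, ∃ C, ∀ n, |f i n| ≤ C) :
    ∃ φ : ℕ → ℕ, StrictMono φ ∧ ∀ i, ∃ L, Tendsto (fun n => f i (φ n)) atTop (𝓝 L) := by
  choose C hC using hb
  have hK : IsCompact (Set.pi Set.univ (fun i => Set.Icc (-(C i)) (C i))) :=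
    isCompact_univ_pi fun i => isCompact_Icc
  obtain ⟨a, -, φ, hφ, h⟩ := hK.tendsto_subseq (x := fun n i => f i n)
    (fun n i _ => abs_le.1 (hC i n))
  refine ⟨φ, hφ, fun i => ⟨a i, ?_⟩⟩
  exact (tendsto_pi_nhds.1 h) i

/-- A diagonal argument. -/
theorem diag_gen (Q : ℕ → (ℕ → ℕ) → Prop)
    (h1 : ∀ n φ, StrictMono φ → ∃ ψ : ℕ → ℕ, StrictMono ψ ∧ Q n (φ ∘ ψ))
    (h2 : ∀ n φ ψ, Q n φ → StrictMono ψ → Q n (φ ∘ ψ))
    (h3 : ∀ n φ N, Q n (fun k => φ (k + N)) → Q n φ) :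
    ∃ φ : ℕ → ℕ, StrictMono φ ∧ ∀ n, Q n φ := by
  classical
  choose! g hg1 hg2 using h1
  let Φ : ℕ → (ℕ → ℕ) := fun n => Nat.rec (g 0 id) (fun n φ => φ ∘ g (n + 1) φ) n
  have Φ0 : Φ 0 = g 0 id := rfl
  have ΦS : ∀ n, Φ (n + 1) = Φ n ∘ g (n + 1) (Φ n) := fun n => rfl
  have hΦ : ∀ n, StrictMono (Φ n) := by
    intro n
    induction n with
    | zero => exact hg1 0 id strictMono_id
    | succ n ih => rw [ΦS]; exact ih.comp (hg1 (n + 1) _ ih)
  have hQ : ∀ n, Q n (Φ n) := by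
    intro n
    cases n with
    | zero => exact hg2 0 id strictMono_id
    | succ n => rw [ΦS]; exact hg2 (n + 1) _ (hΦ n)
  let ψ : ℕ → ℕ → ℕ := fun n => g (n + 1) (Φ n)
  have hψ : ∀ n, StrictMono (ψ n) := fun n => hg1 (n + 1) _ (hΦ n)
  let Ψ : ℕ → ℕ → (ℕ → ℕ) := fun n k => Nat.rec id (fun k χ => χ ∘ ψ (n + k)) k
  have Ψ0 : ∀ n, Ψ n 0 = id := fun n => rfl
  have ΨS : ∀ n k, Ψ n (k + 1) = Ψ n k ∘ ψ (n + k) := fun n k => rfl
  have hΨ : ∀ n k, StrictMono (Ψ n k) := by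
    intro n k
    induction k with
    | zero => exact strictMono_id
    | succ k ih => rw [ΨS]; exact ih.comp (hψ _)
  have hcomp : ∀ n k, Φ (n + k) = Φ n ∘ Ψ n k := by
    intro n k
    induction k with
    | zero => rfl
    | succ k ih =>
      rw [← add_assoc, ΦS, ih, ΨS]
      rw [Function.comp_assoc]
      show (Φ n ∘ Ψ n k) ∘ g (n + k + 1) (Φ n ∘ Ψ n k) = (Φ n ∘ Ψ n k) ∘ g (n + k + 1) (Φ (n + k))
      rw [ih]
  refine ⟨fun k => Φ k k, ?_, ?_⟩
  · refine strictMono_nat_of_lt_succ fun k => ?_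
    rw [ΦS]
    exact hΦ k (lt_of_lt_of_le (Nat.lt_succ_self k) ((hψ k).id_le (k + 1)))
  · intro n
    refine h3 n _ n ?_
    have e : (fun k => Φ (k + n) (k + n)) = Φ n ∘ fun k => Ψ n k (k + n) := by
      funext k
      have := congrFun (hcomp n k) (k + n)
      rw [add_comm n k] at this
      exact this
    rw [e]
    refine h2 n _ _ (hQ n) ?_
    refine strictMono_nat_of_lt_succ fun k => ?_
    rw [ΨS]
    have h5 : k + 1 + n ≤ ψ (n + k) (k + 1 + n) := (hψ (n + k)).id_le (k + 1 + n)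
    exact hΨ n k (lt_of_lt_of_le (by omega) h5)

end Pool.Agent.WRNC
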