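import Pool.Agent.WRNC.Defs

set_option autoImplicit false

namespace Pool.Agent.WRNC

open Filter Topology Set





variable {I : Type} [LinearOrder I]

theorem ev_apply {Γ : Type} (h : Γ → Bool) (a : Γ →₀ ℝ) :
    ev h a = ∑ γ ∈ a.support, a γ * bit (h γ) := by
  unfold ev
  rw [Finsupp.lsum_apply, Finsupp.sum]
  apply Finset.sum_congr rfl
  intro γ _
  simp [mul_comm]

theorem mass_nonneg (a : (I × (I → Bool)) →₀ ℝ) (ρ : I) (t : I → Bool) : 0 ≤ mass a ρ t := by
  unfold mass
  exact Finset.sum_nonneg fun γ _ => abs_nonneg _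

theorem mass_le (a : (I × (I → Bool)) →₀ ℝ) (ρ : I) (t : I → Bool) : mass a ρ t ≤ l1n a := by
  classical
  unfold mass l1n
  exact Finset.sum_le_sum_of_subset_of_nonneg (Finset.filter_subset _ _)
    fun γ _ _ => abs_nonneg _

theorem Agree.symm' {ρ : I} {t t' : I → Bool} (h : Agree ρ t t') : Agree ρ t' t :=
  fun η hη => (h η hη).symm

theorem Agree.trans' {ρ : I} {t t' t'' : I → Bool} (h : Agree ρ t t') (h' : Agree ρ t' t'') :
    Agree ρ t t'' :=
  fun η hη => (h η hη).trans (h' η hη)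

theorem cone_congr {ρ : I} {t t' : I → Bool} (h : Agree ρ t t') : cone ρ t = cone ρ t' := by
  ext γ
  constructor
  · rintro ⟨h1, h2⟩
    exact ⟨h1, h2.trans' h⟩
  · rintro ⟨h1, h2⟩
    exact ⟨h1, h2.trans' h.symm'⟩

theorem mass_congr (a : (I × (I → Bool)) →₀ ℝ) {ρ : I} {t t' : I → Bool} (h : Agree ρ t t') :
    mass a ρ t = mass a ρ t' := by
  unfold mass
  rw [cone_congr h]

theorem abs_bit_le (b : Bool) : |bit b| ≤ 1 := by
  unfold bit
  split_ifs
  · rw [abs_one]
  · rw [abs_zero]; exact zero_le_one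

theorem abs_part_le (hat : (I → Bool) → I × (I → Bool) → Bool) (a : (I × (I → Bool)) →₀ ℝ)
    (ρ : I) (t : I → Bool) : |part hat a ρ t| ≤ l1n a := by
  classical
  unfold part l1n
  refine (Finset.abs_sum_le_sum_abs _ _).trans ?_
  refine (Finset.sum_le_sum (g := fun γ => |a γ|) ?_).trans ?_
  · intro γ _
    rw [abs_mul]
    have := mul_le_mul_of_nonneg_left (abs_bit_le (hat t γ)) (abs_nonneg (a γ))
    linarith
  · exact Finset.sum_le_sum_of_subset_of_nonneg (Finset.filter_subset _ _)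
      fun γ _ _ => abs_nonneg _

/-- `hne` says that two branches through the node `(ρ, t)` have the same values outside
of the cone of `(ρ, t)`. -/
theorem ev_sub_part (hat : (I → Bool) → I × (I → Bool) → Bool)
    (hne : ∀ (ρ : I) (y t : I → Bool), Agree ρ y t → ∀ γ ∉ cone ρ t, hat y γ = hat t γ)
    (a : (I × (I → Bool)) →₀ ℝ) {ρ : I} {y t : I → Bool} (h : Agree ρ y t) :
    |ev (hat y) a - part hat a ρ t| ≤ mass a ρ t := by
  classical
  have h1 : ev (hat y) a = ∑ γ ∈ a.support.filter (fun γ => γ ∈ cone ρ t), a γ * bit (hat y γ) +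
      ∑ γ ∈ a.support.filter (fun γ => γ ∉ cone ρ t), a γ * bit (hat y γ) := by
    rw [ev_apply, Finset.sum_filter_add_sum_filter_not]
  have h2 : ∑ γ ∈ a.support.filter (fun γ => γ ∉ cone ρ t), a γ * bit (hat y γ) =
      part hat a ρ t := by
    unfold part
    apply Finset.sum_congr
    · ext γ
      simp only [Finset.mem_filter]
    · intro γ hγ
      rw [hne ρ y t h γ (Finset.mem_filter.1 hγ).2]
  rw [h1, h2, add_sub_cancel_right]
  unfold mass
  refine (Finset.abs_sum_le_sum_abs _ _).trans ?_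
  have h3 : (a.support.filter (fun γ => γ ∈ cone ρ t)) = (@Finset.filter _ (fun γ => γ ∈ cone ρ t)
      (fun γ => Classical.propDecidable _) a.support) := by
    ext γ
    simp only [Finset.mem_filter]
  rw [h3]
  apply Finset.sum_le_sum
  intro γ _
  rw [abs_mul]
  have := mul_le_mul_of_nonneg_left (abs_bit_le (hat y γ)) (abs_nonneg (a γ))
  linarith

end Pool.Agent.WRNC
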