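import Pool.Agent.WRNC.Defs

set_option autoImplicit false

namespace Pool.Agent.WRNC

open Filter Topology Set





variable {I : Type} [LinearOrder I]

theorem mc_nonneg (a : (I × (I → Bool)) →₀ ℝ) (ρ : I) (t : I → Bool) : 0 ≤ mass a ρ t := by
  unfold mass
  exact Finset.sum_nonneg fun γ _ => abs_nonneg _

theorem mc_le (a : (I × (I → Bool)) →₀ ℝ) (ρ : I) (t : I → Bool) : mass a ρ t ≤ l1n a := by
  unfold mass l1n
  classical
  exact Finset.sum_le_sum_of_subset_of_nonneg (Finset.filter_subset _ _)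
    fun γ _ _ => abs_nonneg _

theorem mc_zero (a : (I × (I → Bool)) →₀ ℝ) (ρ : I) (t : I → Bool)
    (h : ∀ γ ∈ a.support, γ ∉ cone ρ t) : mass a ρ t = 0 := by
  unfold mass
  classical
  apply Finset.sum_eq_zero
  intro γ hγ
  rw [Finset.mem_filter] at hγ
  exact absurd hγ.2 (h γ hγ.1)

theorem mc_congr (a : (I × (I → Bool)) →₀ ℝ) (ρ : I) (t t' : I → Bool) (h : Agree ρ t t') :
    mass a ρ t = mass a ρ t' := by
  have h1 : cone ρ t = cone ρ t' := by
    ext γ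
    unfold cone
    simp only [Set.mem_ofPred_eq]
    constructor
    · rintro ⟨h2, h3⟩
      exact ⟨h2, fun η hη => (h3 η hη).trans (h η hη)⟩
    · rintro ⟨h2, h3⟩
      exact ⟨h2, fun η hη => (h3 η hη).trans (h η hη).symm⟩
  unfold mass
  rw [h1]

/-- After passing to a subsequence all masses converge, and they vanish far out. Only countably
many cones are relevant: put `S = ⋃ k, (a k).support` (countable), `lam` a strict bound for all
`γ.1`, `γ ∈ S`; the cone of `(ρ, t)` has mass zero for all `k` unless `ρ < lam` and `t` agrees below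
`ρ` with some `γ.2`, `γ ∈ S` (and then `mass (a k) ρ t = mass (a k) ρ γ.2`). -/
theorem mass_conv (hI : ∀ ξ : I, (Iio ξ).Countable)
    (hbd : ∀ S : Set I, S.Countable → ∃ ξ, ∀ η ∈ S, η < ξ)
    (hdiag : ∀ (ι : Type) (_ : Countable ι) (f : ι → ℕ → ℝ), (∀ i, ∃ C, ∀ n, |f i n| ≤ C) →
      ∃ φ : ℕ → ℕ, StrictMono φ ∧ ∀ i, ∃ L, Tendsto (fun n => f i (φ n)) atTop (𝓝 L))
    (a : ℕ → (I × (I → Bool)) →₀ ℝ) (ha : ∀ k, l1n (a k) ≤ 1) :
    ∃ φ : ℕ → ℕ, StrictMono φ ∧ ∃ m : I → (I → Bool) → ℝ,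
      (∀ ρ t, Tendsto (fun k => mass (a (φ k)) ρ t) atTop (𝓝 (m ρ t))) ∧
      ∃ lam : I, ∀ t, m lam t = 0 := by
  obtain ⟨S, hS⟩ : ∃ S : Set (I × (I → Bool)), S = ⋃ k, ((a k).support : Set (I × (I → Bool))) :=
    ⟨_, rfl⟩
  have hSc : S.Countable := by
    rw [hS]
    exact Set.countable_iUnion fun k => (a k).support.countable_toSet
  have hmem : ∀ k, ∀ γ ∈ (a k).support, γ ∈ S := by
    intro k γ hγ
    rw [hS]
    exact Set.mem_iUnion.2 ⟨k, hγ⟩
  obtain ⟨lam, hlam⟩ := hbd (Prod.fst '' S) (hSc.image _)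
  have hlam' : ∀ k, ∀ γ ∈ (a k).support, γ.1 < lam := fun k γ hγ =>
    hlam γ.1 ⟨γ, hmem k γ hγ, rfl⟩
  have hc1 : Countable (Iio lam) := (hI lam).to_subtype
  have hc2 : Countable S := hSc.to_subtype
  obtain ⟨φ, hφ, hconv⟩ := hdiag (Iio lam × S) inferInstance
    (fun i n => mass (a n) i.1.1 i.2.1.2) (fun i => ⟨1, fun n => by
      rw [abs_of_nonneg (mc_nonneg _ _ _)]
      exact (mc_le _ _ _).trans (ha n)⟩)
  have hex : ∀ ρ t, ∃ L, Tendsto (fun k => mass (a (φ k)) ρ t) atTop (𝓝 L) := by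
    intro ρ t
    by_cases h : ∃ γ ∈ S, ρ < lam ∧ Agree ρ γ.2 t
    · obtain ⟨γ, hγ, h1, h2⟩ := h
      obtain ⟨L, hL⟩ := hconv (⟨ρ, h1⟩, ⟨γ, hγ⟩)
      refine ⟨L, ?_⟩
      simp_rw [← mc_congr _ ρ γ.2 t h2]
      exact hL
    · refine ⟨0, ?_⟩
      have h0 : ∀ k, mass (a (φ k)) ρ t = 0 := by
        intro k
        apply mc_zero
        intro γ hγ hcon
        exact h ⟨γ, hmem _ γ hγ, hcon.1.trans_lt (hlam' _ γ hγ), hcon.2⟩
      simp_rw [h0]
      exact tendsto_const_nhds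
  choose m hm using hex
  refine ⟨φ, hφ, m, hm, lam, fun t => ?_⟩
  have h0 : ∀ k, mass (a (φ k)) lam t = 0 := by
    intro k
    apply mc_zero
    intro γ hγ hcon
    exact absurd hcon.1 (not_le.2 (hlam' _ γ hγ))
  have h1 := hm lam t
  simp_rw [h0] at h1
  exact tendsto_nhds_unique h1 tendsto_const_nhds

end Pool.Agent.WRNC
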