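import Pool.Agent.WRNC.Defs

set_option autoImplicit false

namespace Pool.Agent.WRNC

open Filter Topology Set





variable {I : Type} [LinearOrder I]

theorem fc_bound [WellFoundedLT I] (a : ℕ → (I × (I → Bool)) →₀ ℝ) (ha : ∀ k, l1n (a k) ≤ 1)
    (m : I → (I → Bool) → ℝ)
    (hm : ∀ ρ t, Tendsto (fun k => mass (a k) ρ t) atTop (𝓝 (m ρ t)))
    (ε : ℝ) (ρ : I) (T : Finset (I → Bool)) (hB : ∀ t ∈ T, ∀ σ < ρ, ε < m σ t)
    (hT : ∀ s ∈ T, ∀ t ∈ T, s ≠ t → ¬ Agree ρ s t) (h2 : 2 ≤ T.card) :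
    (T.card : ℝ) * ε ≤ 2 := by
  classical
  have hdiff : ∀ s t : I → Bool, ∃ ζ, ¬ Agree ρ s t → ζ < ρ ∧ Agree ζ s t ∧ s ζ ≠ t ζ := by
    intro s t
    by_cases h : Agree ρ s t
    · exact ⟨ρ, fun h' => absurd h h'⟩
    · have hne : {η | η < ρ ∧ s η ≠ t η}.Nonempty := by
        unfold Agree at h
        push Not at h
        obtain ⟨η, h1, h2⟩ := h
        exact ⟨η, h1, h2⟩
      obtain ⟨ζ, hζ, hmin⟩ := (wellFounded_lt (α := I)).has_min _ hne
      refine ⟨ζ, fun _ => ⟨hζ.1, ?_, hζ.2⟩⟩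
      intro η hη
      by_contra hne'
      exact hmin η ⟨hη.trans hζ.1, hne'⟩ hη
  choose δ hδ using hdiff
  obtain ⟨x, hx, y, hy, hxy⟩ := Finset.one_lt_card.mp (by omega : 1 < T.card)
  have hoff : (T.offDiag).Nonempty := ⟨(x, y), Finset.mem_offDiag.mpr ⟨hx, hy, hxy⟩⟩
  obtain ⟨p, hp, hpmax⟩ := Finset.exists_max_image T.offDiag (fun q => δ q.1 q.2) hoff
  obtain ⟨hp1, hp2, hp3⟩ := Finset.mem_offDiag.mp hp
  set σ := δ p.1 p.2 with hσ
  have hσρ : σ < ρ := (hδ p.1 p.2 (hT _ hp1 _ hp2 hp3)).1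
  have hle : ∀ s ∈ T, ∀ t ∈ T, s ≠ t → δ s t ≤ σ := by
    intro s hs t ht hst
    exact hpmax (s, t) (Finset.mem_offDiag.mpr ⟨hs, ht, hst⟩)
  have hneσ : ∀ s ∈ T, ∀ t ∈ T, s ≠ t → Agree σ s t → s σ ≠ t σ := by
    intro s hs t ht hst hag
    obtain ⟨h1, h2, h3⟩ := hδ s t (hT s hs t ht hst)
    have h4 : ¬ δ s t < σ := fun h => h3 (hag _ h)
    have h5 : δ s t = σ := le_antisymm (hle s hs t ht hst) (not_lt.mp h4)
    rw [h5] at h3
    exact h3
  have htwo : ∀ γ : I × (I → Bool), (T.filter (fun t => γ ∈ cone σ t)).card ≤ 2 := by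
    intro γ
    by_contra hcon
    push Not at hcon
    obtain ⟨u, v, w, hu, hv, hw, huv, huw, hvw⟩ := Finset.two_lt_card_iff.mp hcon
    rw [Finset.mem_filter] at hu hv hw
    have ag : ∀ s t : I → Bool, γ ∈ cone σ s → γ ∈ cone σ t → Agree σ s t := by
      intro s t hs ht η hη
      rw [← hs.2 η hη, ht.2 η hη]
    have n1 := hneσ u hu.1 v hv.1 huv (ag u v hu.2 hv.2)
    have n2 := hneσ u hu.1 w hw.1 huw (ag u w hu.2 hw.2)
    have n3 := hneσ v hv.1 w hw.1 hvw (ag v w hv.2 hw.2)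
    revert n1 n2 n3
    cases u σ <;> cases v σ <;> cases w σ <;> simp
  have hsum : ∀ k, ∑ t ∈ T, mass (a k) σ t ≤ 2 := by
    intro k
    have e1 : ∀ t, mass (a k) σ t
        = ∑ γ ∈ (a k).support, if γ ∈ cone σ t then |(a k) γ| else 0 := by
      intro t
      unfold mass
      rw [Finset.sum_filter]
    simp_rw [e1]
    rw [Finset.sum_comm]
    calc ∑ γ ∈ (a k).support, ∑ t ∈ T, (if γ ∈ cone σ t then |(a k) γ| else 0)
        ≤ ∑ γ ∈ (a k).support, 2 * |(a k) γ| := by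
          refine Finset.sum_le_sum fun γ _ => ?_
          rw [← Finset.sum_filter, Finset.sum_const, nsmul_eq_mul]
          have h3 : ((T.filter (fun t => γ ∈ cone σ t)).card : ℝ) ≤ 2 := by
            exact_mod_cast htwo γ
          exact mul_le_mul_of_nonneg_right h3 (abs_nonneg _)
      _ = 2 * l1n (a k) := by
          unfold l1n
          rw [Finset.mul_sum]
      _ ≤ 2 := by
          have := ha k
          linarith
  have hlim : Tendsto (fun k => ∑ t ∈ T, mass (a k) σ t) atTop (𝓝 (∑ t ∈ T, m σ t)) :=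
    tendsto_finsetSum _ fun t _ => hm σ t
  have hlim2 : ∑ t ∈ T, m σ t ≤ 2 := le_of_tendsto' hlim hsum
  have hlow : (T.card : ℝ) * ε ≤ ∑ t ∈ T, m σ t := by
    rw [← nsmul_eq_mul, ← Finset.sum_const]
    exact Finset.sum_le_sum fun t ht => (hB t ht σ hσρ).le
  exact hlow.trans hlim2

/-- For each level `ρ` the branches all of whose nodes below `ρ` have limit mass `> ε` are
covered, up to agreement below `ρ`, by finitely many. Proof: if `t 1, ..., t n` are pairwise
different below `ρ`, `n ≥ 2`, let `σ < ρ` be the maximum of the first differences of all pairs.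
Then each node `γ` lies in at most two of the cones of `(σ, t i)` (three branches which agree
below `σ` cannot be pairwise different at `σ`), so `∑ i, mass (a k) σ (t i) ≤ 2`, and
in the limit `n ε ≤ 2`. -/
theorem finite_cover [WellFoundedLT I] (a : ℕ → (I × (I → Bool)) →₀ ℝ) (ha : ∀ k, l1n (a k) ≤ 1)
    (m : I → (I → Bool) → ℝ)
    (hm : ∀ ρ t, Tendsto (fun k => mass (a k) ρ t) atTop (𝓝 (m ρ t)))
    (ε : ℝ) (hε : 0 < ε) (ρ : I) :
    ∃ T : Finset (I → Bool), ∀ t : I → Bool, (∀ σ < ρ, ε < m σ t) → ∃ t' ∈ T, Agree ρ t t' := by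
  classical
  by_contra hcon
  push Not at hcon
  have hbuild : ∀ n : ℕ, ∃ T : Finset (I → Bool), T.card = n ∧
      (∀ t ∈ T, ∀ σ < ρ, ε < m σ t) ∧ (∀ s ∈ T, ∀ t ∈ T, s ≠ t → ¬ Agree ρ s t) := by
    intro n
    induction n with
    | zero => exact ⟨∅, rfl, by simp, by simp⟩
    | succ n ih =>
      obtain ⟨T, hc, h1, h2⟩ := ih
      obtain ⟨t, ht1, ht2⟩ := hcon T
      have htT : t ∉ T := fun h => ht2 t h fun _ _ => rfl
      refine ⟨insert t T, ?_, ?_, ?_⟩
      · rw [Finset.card_insert_of_notMem htT, hc]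
      · intro s hs
        rcases Finset.mem_insert.mp hs with rfl | hs
        · exact ht1
        · exact h1 s hs
      · intro s hs s' hs' hne
        rcases Finset.mem_insert.mp hs with h3 | h3 <;>
          rcases Finset.mem_insert.mp hs' with h4 | h4
        · exact absurd (h3.trans h4.symm) hne
        · rw [h3]; exact ht2 s' h4
        · intro hag
          apply ht2 s h3
          intro η hη
          rw [← h4]
          exact (hag η hη).symm
        · exact h2 s h3 s' h4 hne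
  obtain ⟨N, hN⟩ := exists_nat_gt (2 / ε)
  obtain ⟨T, hc, h1, h2⟩ := hbuild (N + 2)
  have h3 := fc_bound a ha m hm ε ρ T h1 h2 (by omega)
  rw [hc] at h3
  rw [div_lt_iff₀ hε] at hN
  push_cast at h3
  nlinarith

end Pool.Agent.WRNC
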