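import Pool.Agent.WRNC.Defs

set_option autoImplicit false

namespace Pool.Agent.WRNC

open Filter Topology Set





variable {I : Type} [LinearOrder I] [WellFoundedLT I]

/-- Pointwise convergent subsequences. Proof: first pass to the subsequence of
`hmass`. For `n : ℕ` put `ε = 1 / (n + 1)`; for each level `ρ ≤ lam` let `T n ρ` be the finite set
from `hfin`. Take a further subsequence along which `part hat (a k) ρ t` converges for all
`n`, `ρ ≤ lam`, `t ∈ T n ρ` (countably many). Given `y` and `n` let `ρ` be the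
least level with `m ρ y ≤ ε`, so `ρ ≤ lam`, and take `t ∈ T n ρ` with `Agree ρ y t`; then
`|ev (hat y) (a k) - part hat (a k) ρ t| ≤ mass (a k) ρ t = mass (a k) ρ y → m ρ y ≤ ε`, so the sequence
`ev (hat y) (a k)` is Cauchy. -/
theorem conv_subseq (hI : ∀ ξ : I, (Iio ξ).Countable)
    (hat : (I → Bool) → I × (I → Bool) → Bool)
    (hdiag : ∀ (ι : Type) (_ : Countable ι) (f : ι → ℕ → ℝ), (∀ i, ∃ C, ∀ n, |f i n| ≤ C) →
      ∃ φ : ℕ → ℕ, StrictMono φ ∧ ∀ i, ∃ L, Tendsto (fun n => f i (φ n)) atTop (𝓝 L))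
    (hcongr : ∀ (a : (I × (I → Bool)) →₀ ℝ) (ρ : I) (t t' : I → Bool), Agree ρ t t' →
      mass a ρ t = mass a ρ t')
    (hpart : ∀ (a : (I × (I → Bool)) →₀ ℝ) (ρ : I) (t : I → Bool), |part hat a ρ t| ≤ l1n a)
    (hev : ∀ (a : (I × (I → Bool)) →₀ ℝ) (ρ : I) (y t : I → Bool), Agree ρ y t →
      |ev (hat y) a - part hat a ρ t| ≤ mass a ρ t)
    (hmass : ∀ (a : ℕ → (I × (I → Bool)) →₀ ℝ), (∀ k, l1n (a k) ≤ 1) →
      ∃ φ : ℕ → ℕ, StrictMono φ ∧ ∃ m : I → (I → Bool) → ℝ,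
      (∀ ρ t, Tendsto (fun k => mass (a (φ k)) ρ t) atTop (𝓝 (m ρ t))) ∧
      ∃ lam : I, ∀ t, m lam t = 0)
    (hfin : ∀ (a : ℕ → (I × (I → Bool)) →₀ ℝ), (∀ k, l1n (a k) ≤ 1) →
      ∀ (m : I → (I → Bool) → ℝ),
      (∀ ρ t, Tendsto (fun k => mass (a k) ρ t) atTop (𝓝 (m ρ t))) →
      ∀ (ε : ℝ), 0 < ε → ∀ ρ : I,
      ∃ T : Finset (I → Bool), ∀ t : I → Bool, (∀ σ < ρ, ε < m σ t) → ∃ t' ∈ T, Agree ρ t t')
    (a : ℕ → (I × (I → Bool)) →₀ ℝ) (ha : ∀ k, l1n (a k) ≤ 1) :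
    ∃ φ : ℕ → ℕ, StrictMono φ ∧ ∀ y : I → Bool, ∃ L,
      Tendsto (fun k => ev (hat y) (a (φ k))) atTop (𝓝 L) := by
  classical
  obtain ⟨φ1, hφ1, m, hm, lam, hlam⟩ := hmass a ha
  set b : ℕ → (I × (I → Bool)) →₀ ℝ := fun k => a (φ1 k) with hb
  have hb1 : ∀ k, l1n (b k) ≤ 1 := fun k => ha _
  have hδ : ∀ n : ℕ, (0:ℝ) < 1 / ((n:ℝ) + 1) := fun n => by positivity
  choose T hT using fun (n : ℕ) (ρ : I) => hfin b hb1 m hm (1 / ((n:ℝ) + 1)) (hδ n) ρ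
  -- the countable index set
  let ι : Type := Σ p : ℕ × (Iic lam : Set I), {t : I → Bool // t ∈ T p.1 p.2.1}
  have hIic : (Iic lam).Countable := by
    have h1 : Iic lam = Iio lam ∪ {lam} := by
      ext x
      simp [le_iff_lt_or_eq]
    rw [h1]
    exact (hI lam).union (countable_singleton lam)
  have : Countable (Iic lam : Set I) := hIic.to_subtype
  have hι : Countable ι := inferInstance
  obtain ⟨φ2, hφ2, hconv⟩ := hdiag ι hι (fun i k => part hat (b k) i.1.2.1 i.2.1)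
    (fun i => ⟨1, fun k => (hpart _ _ _).trans (hb1 k)⟩)
  refine ⟨fun k => φ1 (φ2 k), hφ1.comp hφ2, fun y => ?_⟩
  apply cauchySeq_tendsto_of_complete
  rw [Metric.cauchySeq_iff']
  intro ε hε
  obtain ⟨n, hn⟩ := exists_nat_gt (5 / ε)
  have hn' : 5 * (1 / ((n:ℝ) + 1)) < ε := by
    rw [mul_one_div, div_lt_iff₀ (by positivity)]
    rw [div_lt_iff₀ hε] at hn
    nlinarith
  set δ : ℝ := 1 / ((n:ℝ) + 1) with hδdef
  have hδ0 : 0 < δ := hδ n
  -- the least level with small mass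
  obtain ⟨ρ, hρ, hmin⟩ := WellFounded.has_min (wellFounded_lt (α := I)) {ρ | m ρ y ≤ δ}
    ⟨lam, by show m lam y ≤ δ; rw [hlam]; exact hδ0.le⟩
  have hρ' : m ρ y ≤ δ := hρ
  have hρlam : ρ ≤ lam := not_lt.1 (hmin lam (by show m lam y ≤ δ; rw [hlam]; exact hδ0.le))
  obtain ⟨t, htT, hyt⟩ := hT n ρ y (fun σ hσ => not_le.1 fun h => hmin σ h hσ)
  obtain ⟨L, hL⟩ := hconv ⟨(n, ⟨ρ, hρlam⟩), ⟨t, htT⟩⟩
  have hL' : Tendsto (fun k => part hat (b (φ2 k)) ρ t) atTop (𝓝 L) := hL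
  have hmt : Tendsto (fun k => mass (b (φ2 k)) ρ y) atTop (𝓝 (m ρ y)) :=
    (hm ρ y).comp hφ2.tendsto_atTop
  have h1 : ∀ᶠ k in atTop, mass (b (φ2 k)) ρ y < 2 * δ :=
    hmt.eventually (gt_mem_nhds (by linarith))
  have h2 : ∀ᶠ k in atTop, |part hat (b (φ2 k)) ρ t - L| < δ / 2 := by
    have := (Metric.tendsto_nhds.1 hL') (δ / 2) (by positivity)
    filter_upwards [this] with k hk
    rwa [Real.dist_eq] at hk
  obtain ⟨N, hN⟩ := eventually_atTop.1 (h1.and h2)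
  have key : ∀ k, N ≤ k → |ev (hat y) (b (φ2 k)) - L| < 5 / 2 * δ := by
    intro k hk
    obtain ⟨h3, h4⟩ := hN k hk
    have h5 := hev (b (φ2 k)) ρ y t hyt
    have h6 : mass (b (φ2 k)) ρ t = mass (b (φ2 k)) ρ y :=
      hcongr _ _ _ _ fun η hη => (hyt η hη).symm
    rw [h6] at h5
    have h7 : ev (hat y) (b (φ2 k)) - L = (ev (hat y) (b (φ2 k)) - part hat (b (φ2 k)) ρ t) +
      (part hat (b (φ2 k)) ρ t - L) := by ring
    rw [h7]
    have h8 := abs_add_le (ev (hat y) (b (φ2 k)) - part hat (b (φ2 k)) ρ t)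
      (part hat (b (φ2 k)) ρ t - L)
    linarith
  refine ⟨N, fun k hk => ?_⟩
  have h3 := key k hk
  have h4 := key N le_rfl
  rw [Real.dist_eq]
  show |ev (hat y) (b (φ2 k)) - ev (hat y) (b (φ2 N))| < ε
  have h7 : ev (hat y) (b (φ2 k)) - ev (hat y) (b (φ2 N)) = (ev (hat y) (b (φ2 k)) - L) +
      (L - ev (hat y) (b (φ2 N))) := by ring
  rw [h7]
  have h8 := abs_add_le (ev (hat y) (b (φ2 k)) - L) (L - ev (hat y) (b (φ2 N)))
  rw [abs_sub_comm L] at h8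
  linarith

end Pool.Agent.WRNC
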