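import Pool.Agent.WRNC.Defs

set_option autoImplicit false

namespace Pool.Agent.WRNC

open Filter Topology Set



/-- Mazur's theorem for pointwise null bounded sequences in `C(T)`. Proof: otherwise the open ball
of radius `ε` and the convex hull of `{f i | k ≤ i}` are disjoint convex sets
(`geometric_hahn_banach_open`), so some `μ` and `u` satisfy `μ b < u ≤ μ (f i)` for all `b` in the
ball and `i ≥ k`; `0 < u` because of `b = 0`; but `μ (f i) → 0` by `hpt`. -/
theorem mazur (hpt : ∀ (T : Type) (_ : TopologicalSpace T) (_ : CompactSpace T) (Γ : Type)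
      (u : Γ → C(T, ℝ)), (∀ γ, ‖u γ‖ ≤ 1) →
      (∀ t : T, ∀ η : ℝ, 0 < η → {γ | η ≤ |u γ t|}.Finite) →
      ∀ (μ : StrongDual ℝ C(T, ℝ)) (η : ℝ), 0 < η → {γ | η ≤ |μ (u γ)|}.Finite)
    {T : Type} [TopologicalSpace T] [CompactSpace T] (f : ℕ → C(T, ℝ)) (C : ℝ)
    (hC : ∀ n, ‖f n‖ ≤ C) (h0 : ∀ t, Tendsto (fun n => f n t) atTop (𝓝 0)) (ε : ℝ) (hε : 0 < ε)
    (k : ℕ) : ∃ c : ℕ →₀ ℝ, (∀ i ∈ c.support, k ≤ i) ∧ (∀ i, 0 ≤ c i) ∧
      ∑ i ∈ c.support, c i = 1 ∧ ‖∑ i ∈ c.support, c i • f i‖ < ε := by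
  set T' : Set C(T, ℝ) := {x | ∃ c : ℕ →₀ ℝ, (∀ i < k, c i = 0) ∧ (∀ i, 0 ≤ c i) ∧
    Finsupp.linearCombination ℝ (fun _ : ℕ => (1 : ℝ)) c = 1 ∧
    Finsupp.linearCombination ℝ f c = x} with hT'
  have hconv : Convex ℝ T' := by
    rintro x ⟨c, hc1, hc2, hc3, rfl⟩ y ⟨d, hd1, hd2, hd3, rfl⟩ a b ha hb hab
    refine ⟨a • c + b • d, ?_, ?_, ?_, ?_⟩
    · intro i hi
      rw [Finsupp.add_apply, Finsupp.smul_apply, Finsupp.smul_apply, hc1 i hi, hd1 i hi,
        smul_zero, smul_zero, add_zero]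
    · intro i
      rw [Finsupp.add_apply, Finsupp.smul_apply, Finsupp.smul_apply, smul_eq_mul, smul_eq_mul]
      exact add_nonneg (mul_nonneg ha (hc2 i)) (mul_nonneg hb (hd2 i))
    · rw [map_add, map_smul, map_smul, hc3, hd3, smul_eq_mul, smul_eq_mul, mul_one, mul_one, hab]
    · rw [map_add, map_smul, map_smul]
  have hmem : ∀ i, k ≤ i → f i ∈ T' := by
    intro i hi
    refine ⟨Finsupp.single i 1, ?_, ?_, ?_, ?_⟩
    · intro j hj
      exact Finsupp.single_eq_of_ne (by omega)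
    · intro j
      rw [Finsupp.single_apply]
      split_ifs
      · exact zero_le_one
      · exact le_rfl
    · rw [Finsupp.linearCombination_single, one_smul]
    · rw [Finsupp.linearCombination_single, one_smul]
  by_cases hex : ∃ x ∈ T', ‖x‖ < ε
  · obtain ⟨x, ⟨c, hc1, hc2, hc3, hc4⟩, hx⟩ := hex
    refine ⟨c, ?_, hc2, ?_, ?_⟩
    · intro i hi
      by_contra hik
      exact (Finsupp.mem_support_iff.1 hi) (hc1 i (by omega))
    · rw [Finsupp.linearCombination_apply, Finsupp.sum] at hc3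
      simpa using hc3
    · rw [Finsupp.linearCombination_apply, Finsupp.sum] at hc4
      rw [hc4]
      exact hx
  · exfalso
    have hdisj : Disjoint (Metric.ball (0 : C(T, ℝ)) ε) T' := by
      rw [Set.disjoint_left]
      intro x hx hxT
      exact hex ⟨x, hxT, mem_ball_zero_iff.1 hx⟩
    obtain ⟨μ, u, hμ1, hμ2⟩ := geometric_hahn_banach_open (convex_ball (0 : C(T, ℝ)) ε)
      Metric.isOpen_ball hconv hdisj
    have hu : 0 < u := by
      have h := hμ1 0 (Metric.mem_ball_self hε)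
      rwa [map_zero] at h
    have hC1 : 0 < |C| + 1 := by positivity
    have hfin := hpt T inferInstance inferInstance ℕ (fun n => (1 / (|C| + 1)) • f n) ?_ ?_ μ
      (u / (|C| + 1)) (div_pos hu hC1)
    · have hsub : Set.Ici k ⊆ {γ : ℕ | u / (|C| + 1) ≤ |μ ((1 / (|C| + 1)) • f γ)|} := by
        intro i hi
        show u / (|C| + 1) ≤ |μ ((1 / (|C| + 1)) • f i)|
        rw [map_smul, smul_eq_mul]
        have h := hμ2 (f i) (hmem i hi)
        calc u / (|C| + 1) = 1 / (|C| + 1) * u := by ring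
          _ ≤ 1 / (|C| + 1) * μ (f i) := mul_le_mul_of_nonneg_left h (by positivity)
          _ ≤ _ := le_abs_self _
      exact (Set.Ici_infinite k) (hfin.subset hsub)
    · intro n
      rw [norm_smul, Real.norm_eq_abs, abs_of_pos (by positivity : 0 < 1 / (|C| + 1))]
      have h1 : ‖f n‖ ≤ |C| + 1 := (hC n).trans ((le_abs_self C).trans (by linarith))
      rw [div_mul_eq_mul_div, one_mul, div_le_one hC1]
      exact h1
    · intro t η hη
      have h1 : Tendsto (fun n => |((1 / (|C| + 1)) • f n) t|) atTop (𝓝 0) := by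
        have h2 : Tendsto (fun n => |(1 / (|C| + 1)) * f n t|) atTop (𝓝 |(1 / (|C| + 1)) * 0|) :=
          ((h0 t).const_mul _).abs
        rw [mul_zero, abs_zero] at h2
        exact h2
      have h3 : ∀ᶠ n in atTop, |((1 / (|C| + 1)) • f n) t| < η := h1.eventually_lt_const hη
      obtain ⟨N, hN⟩ := eventually_atTop.1 h3
      refine (Set.finite_lt_nat N).subset ?_
      intro n hn
      by_contra hnN
      have h4 : η ≤ |((1 / (|C| + 1)) • f n) t| := hn
      exact absurd (hN n (not_lt.1 hnN)) (not_lt.2 h4)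

end Pool.Agent.WRNC
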