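import Pool.Agent.WRNC.Defs

set_option autoImplicit false

namespace Pool.Agent.WRNC

open Filter Topology Set



variable {V : Type} [AddCommGroup V] [Module ℝ V]

theorem Nn_smul_left (p : Seminorm ℝ V) (n : ℕ) (a : V) :
    (((1 / 2 : NNReal) ^ n) • p) a = (1 / 2) ^ n * p a := by
  rw [Seminorm.smul_apply, NNReal.smul_def, smul_eq_mul]
  push_cast
  rfl

theorem Nn_smul_right (q : Seminorm ℝ V) (n : ℕ) (a : V) :
    (((2 : NNReal) ^ n) • q) a = 2 ^ n * q a := by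
  rw [Seminorm.smul_apply, NNReal.smul_def, smul_eq_mul]
  push_cast
  rfl

theorem Nn_le_left (p q : Seminorm ℝ V) (n : ℕ) (a : V) : Nn p q n a ≤ (1 / 2) ^ n * p a := by
  have h : Nn p q n ≤ ((1 / 2 : NNReal) ^ n) • p := inf_le_left
  rw [← Nn_smul_left]
  exact h a

theorem Nn_le_right (p q : Seminorm ℝ V) (n : ℕ) (a : V) : Nn p q n a ≤ 2 ^ n * q a := by
  have h : Nn p q n ≤ ((2 : NNReal) ^ n) • q := inf_le_right
  rw [← Nn_smul_right]
  exact h a

theorem Nn_decomp (p q : Seminorm ℝ V) (n : ℕ) (a : V) {M : ℝ} (h : Nn p q n a < M) :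
    ∃ b : V, (1 / 2) ^ n * p b + 2 ^ n * q (a - b) < M := by
  unfold Nn at h
  rw [Seminorm.inf_apply] at h
  obtain ⟨b, hb⟩ := exists_lt_of_ciInf_lt h
  refine ⟨b, ?_⟩
  rw [Nn_smul_left, Nn_smul_right] at hb
  exact hb

theorem bddAbove_Nn (p q : Seminorm ℝ V) : BddAbove (range (Nn p q)) := by
  refine ⟨p, ?_⟩
  rintro _ ⟨n, rfl⟩ a
  refine (Nn_le_left p q n a).trans ?_
  have h1 : ((1 : ℝ) / 2) ^ n ≤ 1 := pow_le_one₀ (by norm_num) (by norm_num)
  exact mul_le_of_le_one_left (apply_nonneg p a) h1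

theorem NN_apply (p q : Seminorm ℝ V) (a : V) : NN p q a = ⨆ n, Nn p q n a :=
  Seminorm.iSup_apply (bddAbove_Nn p q)

theorem bdd_apply (p q : Seminorm ℝ V) (a : V) : BddAbove (range fun n => Nn p q n a) := by
  refine ⟨p a, ?_⟩
  rintro _ ⟨n, rfl⟩
  refine (Nn_le_left p q n a).trans ?_
  have h1 : ((1 : ℝ) / 2) ^ n ≤ 1 := pow_le_one₀ (by norm_num) (by norm_num)
  exact mul_le_of_le_one_left (apply_nonneg p a) h1

theorem Nn_le_NN (p q : Seminorm ℝ V) (n : ℕ) (a : V) : Nn p q n a ≤ NN p q a := by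
  rw [NN_apply]
  exact le_ciSup (bdd_apply p q a) n

theorem NN_le (p q : Seminorm ℝ V) (a : V) {C : ℝ} (h : ∀ n, Nn p q n a ≤ C) :
    NN p q a ≤ C := by
  rw [NN_apply]
  exact ciSup_le h

theorem le_NN (p q : Seminorm ℝ V) (hqp : ∀ a, q a ≤ p a) (a : V) : q a ≤ NN p q a := by
  refine le_trans ?_ (Nn_le_NN p q 0 a)
  unfold Nn
  rw [Seminorm.inf_apply]
  refine le_ciInf (fun b => ?_)
  rw [Nn_smul_left, Nn_smul_right, pow_zero, pow_zero, one_mul, one_mul]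
  have h1 : q a ≤ q b + q (a - b) := by
    have := map_add_le_add q b (a - b)
    rwa [add_sub_cancel] at this
  have := hqp b
  linarith

end Pool.Agent.WRNC
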