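import Pool.Agent.WRNC.Defs

set_option autoImplicit false

namespace Pool.Agent.WRNC

open Filter Topology Set



variable {V : Type} [AddCommGroup V] [Module ℝ V]

/-- `NN`-bounded sequences have pointwise convergent subsequences, if `p`-bounded ones do.
Proof: for every `n` write `x k = b k n + (x k - b k n)` with `(1/2)^n p (b k n) + 2^n q (x k - b k n)
< M + 1`, diagonalise (`hdiag`, with `Q n φ` the statement that `F y (b (φ k) n)` converges for all `y`)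
so that `F y (b (φ k) n)` converges for all `n`, `y`, and estimate
`|F y (x k - b k n)| ≤ q (x k - b k n) ≤ (M + 1) / 2 ^ n`. -/
theorem NN_conv (p q : Seminorm ℝ V)
    (hdec : ∀ (n : ℕ) (a : V) (M : ℝ), NN p q a < M →
      ∃ b : V, (1 / 2) ^ n * p b + 2 ^ n * q (a - b) < M)
    (hdiag : ∀ (Q : ℕ → (ℕ → ℕ) → Prop)
      (_ : ∀ n φ, StrictMono φ → ∃ ψ : ℕ → ℕ, StrictMono ψ ∧ Q n (φ ∘ ψ))
      (_ : ∀ n φ ψ, Q n φ → StrictMono ψ → Q n (φ ∘ ψ))
      (_ : ∀ n φ N, Q n (fun k => φ (k + N)) → Q n φ),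
      ∃ φ : ℕ → ℕ, StrictMono φ ∧ ∀ n, Q n φ)
    {Y : Type} (F : Y → V →ₗ[ℝ] ℝ) (hFq : ∀ y a, |F y a| ≤ q a)
    (hconv : ∀ a : ℕ → V, (∀ k, p (a k) ≤ 1) → ∃ φ : ℕ → ℕ, StrictMono φ ∧
      ∀ y, ∃ L, Tendsto (fun k => F y (a (φ k))) atTop (𝓝 L))
    (x : ℕ → V) (M : ℝ) (hx : ∀ k, NN p q (x k) ≤ M) :
    ∃ φ : ℕ → ℕ, StrictMono φ ∧ ∀ y, ∃ L, Tendsto (fun k => F y (x (φ k))) atTop (𝓝 L) := by
  choose b hb using fun (n k : ℕ) => hdec n (x k) (M + 1) (by linarith [hx k])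
  have hM : 0 < M + 1 := by
    refine lt_of_le_of_lt ?_ (hb 0 0)
    have h1 := apply_nonneg p (b 0 0)
    have h2 := apply_nonneg q (x 0 - b 0 0)
    simp only [pow_zero, one_mul]
    linarith
  have hp : ∀ n k, p (b n k) ≤ (M + 1) * 2 ^ n := by
    intro n k
    have h1 := hb n k
    have h2 : 0 ≤ 2 ^ n * q (x k - b n k) := mul_nonneg (by positivity) (apply_nonneg q _)
    have h3 : (1 / 2 : ℝ) ^ n * p (b n k) ≤ M + 1 := by linarith
    have h4 : p (b n k) = (1 / 2 : ℝ) ^ n * p (b n k) * 2 ^ n := by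
      have : (1 / 2 : ℝ) ^ n * 2 ^ n = 1 := by rw [← mul_pow]; norm_num
      calc p (b n k) = ((1 / 2 : ℝ) ^ n * 2 ^ n) * p (b n k) := by rw [this, one_mul]
        _ = _ := by ring
    rw [h4]
    exact mul_le_mul_of_nonneg_right h3 (by positivity)
  have hq : ∀ n k, q (x k - b n k) ≤ (M + 1) * (1 / 2) ^ n := by
    intro n k
    have h1 := hb n k
    have h2 : 0 ≤ (1 / 2 : ℝ) ^ n * p (b n k) := mul_nonneg (by positivity) (apply_nonneg p _)
    have h3 : (2 : ℝ) ^ n * q (x k - b n k) ≤ M + 1 := by linarith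
    have h4 : q (x k - b n k) = (2 : ℝ) ^ n * q (x k - b n k) * (1 / 2) ^ n := by
      have : (2 : ℝ) ^ n * (1 / 2) ^ n = 1 := by rw [← mul_pow]; norm_num
      calc q (x k - b n k) = ((2 : ℝ) ^ n * (1 / 2) ^ n) * q (x k - b n k) := by
            rw [this, one_mul]
        _ = _ := by ring
    rw [h4]
    exact mul_le_mul_of_nonneg_right h3 (by positivity)
  obtain ⟨φ, hφ, hQ⟩ := hdiag
    (fun n φ => ∀ y, ∃ L, Tendsto (fun k => F y (b n (φ k))) atTop (𝓝 L))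
    (by
      intro n φ hφ
      have hc : 0 < (M + 1) * 2 ^ n := by positivity
      obtain ⟨ψ, hψ, hL⟩ := hconv (fun k => ((M + 1) * 2 ^ n)⁻¹ • b n (φ k)) (by
        intro k
        rw [map_smul_eq_mul, Real.norm_eq_abs, abs_of_pos (inv_pos.2 hc), inv_mul_le_iff₀ hc,
          mul_one]
        exact hp n _)
      refine ⟨ψ, hψ, fun y => ?_⟩
      obtain ⟨L, hL⟩ := hL y
      refine ⟨((M + 1) * 2 ^ n) * L, ?_⟩
      have h1 := hL.const_mul ((M + 1) * 2 ^ n)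
      refine h1.congr fun k => ?_
      rw [map_smul, smul_eq_mul, mul_inv_cancel_left₀ hc.ne']
      rfl)
    (by
      intro n φ ψ h hψ y
      obtain ⟨L, hL⟩ := h y
      exact ⟨L, hL.comp hψ.tendsto_atTop⟩)
    (by
      intro n φ N h y
      obtain ⟨L, hL⟩ := h y
      exact ⟨L, (tendsto_add_atTop_iff_nat (f := fun k => F y (b n (φ k))) N).1 hL⟩)
  refine ⟨φ, hφ, fun y => ?_⟩
  apply cauchySeq_tendsto_of_complete
  rw [Metric.cauchySeq_iff']
  intro ε hε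
  obtain ⟨n, hn⟩ := exists_pow_lt_of_lt_one (show 0 < ε / 4 / (M + 1) by positivity)
    (show (1 / 2 : ℝ) < 1 by norm_num)
  have hn' : (M + 1) * (1 / 2) ^ n < ε / 4 := by
    rw [lt_div_iff₀ hM] at hn
    linarith
  obtain ⟨L, hL⟩ := hQ n y
  obtain ⟨N, hN⟩ := Metric.tendsto_atTop.1 hL (ε / 4) (by positivity)
  have hd : ∀ k, |F y (x (φ k)) - F y (b n (φ k))| < ε / 4 := by
    intro k
    rw [← map_sub]
    exact ((hFq y _).trans (hq n (φ k))).trans_lt hn'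
  refine ⟨N, fun k hk => ?_⟩
  have h1 := hN k hk
  have h2 := hN N le_rfl
  have h3 := hd k
  have h4 := hd N
  rw [Real.dist_eq] at h1 h2 ⊢
  rw [abs_lt] at h1 h2 h3 h4 ⊢
  constructor <;> linarith [h1.1, h1.2, h2.1, h2.2, h3.1, h3.2, h4.1, h4.2]

end Pool.Agent.WRNC
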