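import Pool.Agent.WRNC.Defs

set_option autoImplicit false

namespace Pool.Agent.WRNC

open Filter Topology Set



variable {V : Type} [AddCommGroup V] [Module ℝ V]

/-- Blocks. If every tail of the bounded sequence `x` has combinations
`∑ c i • x i`, `∑ |c i| = 2`, with bounded `N` and arbitrarily small `q`, then `x` is not an `ℓ₁` sequence
for `N = sup_n Nn`. Proof (gliding hump): choose successively `z_1, z_2, ...`
with disjoint supports and numbers `n_1 < n_2 < ...` such that
`(1/2)^(n_j) p (z_j) ≤ 2^(-j)` and `2^(n_(j-1)) q (z_j) ≤ 2^(-j)`. For every `n` there is at most one `j`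
such that neither estimate applies, so `Nn n (z_1 + ... + z_P) ≤ 2 M + 2` for all `n`,
whereas `N (z_1 + ... + z_P) ≥ 2 δ P`. -/
theorem gliding_hump (p q N : Seminorm ℝ V) (Nl : ℕ → Seminorm ℝ V)
    (h1 : ∀ n a, Nl n a ≤ (1 / 2) ^ n * p a) (h2 : ∀ n a, Nl n a ≤ 2 ^ n * q a)
    (h3 : ∀ n a, Nl n a ≤ N a) (h4 : ∀ a C, (∀ n, Nl n a ≤ C) → N a ≤ C)
    (x : ℕ → V) (M : ℝ)
    (hblock : ∀ ε : ℝ, 0 < ε → ∀ k : ℕ, ∃ c : ℕ →₀ ℝ, (∀ i ∈ c.support, k ≤ i) ∧
      ∑ i ∈ c.support, |c i| = 2 ∧ N (∑ i ∈ c.support, c i • x i) ≤ 2 * M ∧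
      q (∑ i ∈ c.support, c i • x i) < ε) :
    ¬ ∃ δ : ℝ, 0 < δ ∧ ∀ (n : ℕ) (c : ℕ → ℝ),
      δ * ∑ i ∈ Finset.range n, |c i| ≤ N (∑ i ∈ Finset.range n, c i • x i) := by
  classical
  rintro ⟨δ, hδ, hlow⟩
  have hM : 0 ≤ M := by
    obtain ⟨c, -, -, h, -⟩ := hblock 1 one_pos 0
    have := apply_nonneg N (∑ i ∈ c.support, c i • x i)
    linarith
  have key : ∀ P : ℕ, ∀ η : ℝ, 0 < η → ∀ k n0 : ℕ, ∃ c : ℕ →₀ ℝ, (∀ i ∈ c.support, k ≤ i) ∧
      (c.sum fun _ a => |a|) = 2 * P ∧
      (∀ n ≤ n0, Nl n (c.sum fun i a => a • x i) ≤ η) ∧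
      (∀ n, Nl n (c.sum fun i a => a • x i) ≤ 2 * M + η) := by
    intro P
    induction P with
    | zero =>
      intro η hη k n0
      refine ⟨0, by simp, by simp, fun n _ => ?_, fun n => ?_⟩
      · rw [Finsupp.sum_zero_index, map_zero]; exact hη.le
      · rw [Finsupp.sum_zero_index, map_zero]; linarith
    | succ P ih =>
      intro η hη k n0
      have hη2 : 0 < η / 2 := by linarith
      obtain ⟨c1, hk1, hs1, hN1, hq1⟩ := hblock (η / 2 / 2 ^ n0) (by positivity) k
      set z1 := ∑ i ∈ c1.support, c1 i • x i with hz1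
      obtain ⟨m, hm⟩ : ∃ m : ℕ, (1 / 2 : ℝ) ^ m * p z1 < η / 2 := by
        have hp : 0 ≤ p z1 := apply_nonneg p z1
        obtain ⟨m, hm⟩ := exists_pow_lt_of_lt_one
          (show (0 : ℝ) < η / 2 / (p z1 + 1) by positivity) (show (1 / 2 : ℝ) < 1 by norm_num)
        refine ⟨m, ?_⟩
        have h5 : (1 / 2 : ℝ) ^ m * (p z1 + 1) < η / 2 := (lt_div_iff₀ (by positivity)).1 hm
        have h6 : (0 : ℝ) ≤ (1 / 2 : ℝ) ^ m := by positivity
        nlinarith
      obtain ⟨c2, hk2, hs2, hlow2, hall2⟩ := ih (η / 2) hη2 (max k (c1.support.sup id + 1)) (max n0 m)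
      have hdisj : Disjoint c1.support c2.support := by
        rw [Finset.disjoint_left]
        intro i hi1 hi2
        have h7 : i ≤ c1.support.sup id := Finset.le_sup (f := id) hi1
        have h8 := hk2 i hi2
        have h9 : c1.support.sup id + 1 ≤ i := (le_max_right _ _).trans h8
        omega
      have hz : (c1 + c2).sum (fun i a => a • x i) = z1 + c2.sum (fun i a => a • x i) := by
        rw [Finsupp.sum_add_index_of_disjoint hdisj]
        rfl
      refine ⟨c1 + c2, ?_, ?_, ?_, ?_⟩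
      · intro i hi
        rcases Finset.mem_union.1 (Finsupp.support_add hi) with h | h
        · exact hk1 i h
        · exact (le_max_left _ _).trans (hk2 i h)
      · rw [Finsupp.sum_add_index_of_disjoint hdisj, hs2]
        have : (c1.sum fun _ a => |a|) = 2 := hs1
        rw [this]
        push_cast
        ring
      · intro n hn
        rw [hz]
        have a1 : Nl n z1 ≤ η / 2 := by
          refine (h2 n z1).trans ?_
          have b1 : (2 : ℝ) ^ n ≤ 2 ^ n0 := pow_le_pow_right₀ (by norm_num) hn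
          have b2 : 0 ≤ q z1 := apply_nonneg q z1
          have b3 : (2 : ℝ) ^ n0 * q z1 ≤ η / 2 := by
            have := (lt_div_iff₀ (by positivity : (0 : ℝ) < 2 ^ n0)).1 hq1
            linarith
          calc (2 : ℝ) ^ n * q z1 ≤ 2 ^ n0 * q z1 := mul_le_mul_of_nonneg_right b1 b2
            _ ≤ η / 2 := b3
        have a2 := hlow2 n (hn.trans (le_max_left _ _))
        have a3 := map_add_le_add (Nl n) z1 (c2.sum fun i a => a • x i)
        linarith
      · intro n
        rw [hz]
        have a3 := map_add_le_add (Nl n) z1 (c2.sum fun i a => a • x i)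
        rcases le_or_gt n (max n0 m) with hn | hn
        · have a2 := hlow2 n hn
          have a1 : Nl n z1 ≤ 2 * M := (h3 n z1).trans hN1
          linarith
        · have a2 := hall2 n
          have a1 : Nl n z1 ≤ η / 2 := by
            refine (h1 n z1).trans ?_
            have b0 : m ≤ n := (le_max_right n0 m).trans hn.le
            have b1 : (1 / 2 : ℝ) ^ n ≤ (1 / 2) ^ m :=
              pow_le_pow_of_le_one (by norm_num) (by norm_num) b0
            have b2 : 0 ≤ p z1 := apply_nonneg p z1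
            calc (1 / 2 : ℝ) ^ n * p z1 ≤ (1 / 2) ^ m * p z1 := mul_le_mul_of_nonneg_right b1 b2
              _ ≤ η / 2 := hm.le
          linarith
  obtain ⟨P, hP⟩ := exists_nat_gt ((2 * M + 1) / (2 * δ))
  obtain ⟨c, -, hs, -, hall⟩ := key P 1 one_pos 0 0
  have hN := h4 _ _ hall
  set L := c.support.sup id + 1 with hL
  have hsub : c.support ⊆ Finset.range L := by
    intro i hi
    have h7 : i ≤ c.support.sup id := Finset.le_sup (f := id) hi
    rw [Finset.mem_range]
    omega
  have hf := hlow L c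
  have e1 : ∑ i ∈ Finset.range L, |c i| = c.sum fun _ a => |a| := by
    symm
    exact Finsupp.sum_of_support_subset _ hsub _ (by simp)
  have e2 : ∑ i ∈ Finset.range L, c i • x i = c.sum fun i a => a • x i := by
    symm
    exact Finsupp.sum_of_support_subset _ hsub _ (by simp)
  rw [e1, e2, hs] at hf
  rw [div_lt_iff₀ (by positivity)] at hP
  nlinarith

end Pool.Agent.WRNC
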