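import Pool.Agent.WRNC.Defs

set_option autoImplicit false

namespace Pool.Agent.WRNC

open Filter Topology Set



variable {V : Type} [AddCommGroup V] [Module ℝ V]

/-- interlacing a finitely supported function -/
theorem blocks_comb (φ : ℕ → ℕ) (hφ : StrictMono φ) (c : ℕ →₀ ℝ) (hc0 : ∀ i, 0 ≤ c i)
    (hc1 : ∑ i ∈ c.support, c i = 1) (x : ℕ → V) : ∃ c' : ℕ →₀ ℝ,
      (∀ m ∈ c'.support, ∃ i ∈ c.support, i ≤ m) ∧ ∑ i ∈ c'.support, |c' i| = 2 ∧
      ∑ i ∈ c'.support, c' i • x i =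
        ∑ i ∈ c.support, c i • (x (φ (2 * i + 1)) - x (φ (2 * i))) := by
  classical
  let e1 : ℕ ↪ ℕ := ⟨fun i => φ (2 * i + 1), fun i j h => by
    have := hφ.injective h; omega⟩
  let e2 : ℕ ↪ ℕ := ⟨fun i => φ (2 * i), fun i j h => by
    have := hφ.injective h; omega⟩
  let A : ℕ →₀ ℝ := Finsupp.embDomain e1 c
  let B : ℕ →₀ ℝ := Finsupp.embDomain e2 (-c)
  have hdis : Disjoint A.support B.support := by
    rw [Finsupp.support_embDomain, Finsupp.support_embDomain, Finset.disjoint_left]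
    intro m hm hm'
    obtain ⟨i, -, hi⟩ := Finset.mem_map.1 hm
    obtain ⟨j, -, hj⟩ := Finset.mem_map.1 hm'
    have h1 : φ (2 * i + 1) = φ (2 * j) := hi.trans hj.symm
    have := hφ.injective h1
    omega
  have hsum : ∀ (W : Type) [AddCommGroup W] (g : ℕ → ℝ → W), (∀ i, g i 0 = 0) →
      (A + B).sum g = c.sum (fun i a => g (φ (2 * i + 1)) a) + c.sum (fun i a => g (φ (2 * i)) (-a)) := by
    intro W _ g hg
    rw [Finsupp.sum_add_index_of_disjoint hdis]
    congr 1
    · exact Finsupp.sum_embDomain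
    · have h1 : B.sum g = (-c).sum (fun i a => g (φ (2 * i)) a) := Finsupp.sum_embDomain
      rw [h1, Finsupp.sum_neg_index]
      intro i
      exact hg _
  refine ⟨A + B, ?_, ?_, ?_⟩
  · intro m hm
    have h1 := Finsupp.support_add hm
    rcases Finset.mem_union.1 h1 with h2 | h2
    · rw [Finsupp.support_embDomain] at h2
      obtain ⟨i, hi, him⟩ := Finset.mem_map.1 h2
      refine ⟨i, hi, ?_⟩
      have h3 : φ (2 * i + 1) = m := him
      have h4 := hφ.id_le (2 * i + 1)
      simp only [id] at h4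
      omega
    · rw [Finsupp.support_embDomain, Finsupp.support_neg] at h2
      obtain ⟨i, hi, him⟩ := Finset.mem_map.1 h2
      refine ⟨i, hi, ?_⟩
      have h3 : φ (2 * i) = m := him
      have h4 := hφ.id_le (2 * i)
      simp only [id] at h4
      omega
  · have h1 := hsum ℝ (fun _ a => |a|) (fun _ => abs_zero)
    have h2 : c.sum (fun _ a => |a|) = 1 := by
      rw [← hc1]
      exact Finset.sum_congr rfl fun i _ => abs_of_nonneg (hc0 i)
    have h3 : c.sum (fun _ a => |(-a)|) = 1 := by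
      rw [← h2]
      exact Finset.sum_congr rfl fun i _ => abs_neg _
    calc ∑ i ∈ (A + B).support, |(A + B) i| = (A + B).sum (fun _ a => |a|) := rfl
      _ = c.sum (fun _ a => |a|) + c.sum (fun _ a => |(-a)|) := h1
      _ = 2 := by rw [h2, h3]; norm_num
  · have h1 : (A + B).sum (fun i a => a • x i) =
        c.sum (fun i a => a • x (φ (2 * i + 1))) + c.sum (fun i a => (-a) • x (φ (2 * i))) := by
      rw [Finsupp.sum_add_index_of_disjoint hdis]
      congr 1
      · exact Finsupp.sum_embDomain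
      · have h1 : B.sum (fun i a => a • x i) =
            (-c).sum (fun i a => a • x (φ (2 * i))) := Finsupp.sum_embDomain
        rw [h1, Finsupp.sum_neg_index]
        intro i
        exact zero_smul _ _
    calc ∑ i ∈ (A + B).support, (A + B) i • x i = (A + B).sum (fun i a => a • x i) := rfl
      _ = c.sum (fun i a => a • x (φ (2 * i + 1))) + c.sum (fun i a => (-a) • x (φ (2 * i))) := h1
      _ = ∑ i ∈ c.support, c i • (x (φ (2 * i + 1)) - x (φ (2 * i))) := by
          unfold Finsupp.sum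
          rw [← Finset.sum_add_distrib]
          refine Finset.sum_congr rfl fun i _ => ?_
          module

/-- The blocks needed for the gliding hump: pass to a subsequence `φ` along which `F y (x (φ k))`
converges for all `y` (`hconv`), put `f k = x (φ (2 k + 1)) - x (φ (2 k))`, so that `F y (f k) → 0`
for all `y`, and apply `hmazur` to `f`. -/
theorem blocks (q N : Seminorm ℝ V) (hqN : ∀ a, q a ≤ N a)
    {Y : Type} (F : Y → V →ₗ[ℝ] ℝ)
    (hconv : ∀ (x : ℕ → V) (M : ℝ), (∀ k, N (x k) ≤ M) → ∃ φ : ℕ → ℕ, StrictMono φ ∧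
      ∀ y, ∃ L, Tendsto (fun k => F y (x (φ k))) atTop (𝓝 L))
    (hmazur : ∀ (f : ℕ → V) (C : ℝ), (∀ n, q (f n) ≤ C) →
      (∀ y, Tendsto (fun n => F y (f n)) atTop (𝓝 0)) → ∀ ε : ℝ, 0 < ε → ∀ k : ℕ,
      ∃ c : ℕ →₀ ℝ, (∀ i ∈ c.support, k ≤ i) ∧ (∀ i, 0 ≤ c i) ∧
      ∑ i ∈ c.support, c i = 1 ∧ q (∑ i ∈ c.support, c i • f i) < ε)
    (x : ℕ → V) (M : ℝ) (hx : ∀ k, N (x k) ≤ M) :
    ∀ ε : ℝ, 0 < ε → ∀ k : ℕ, ∃ c : ℕ →₀ ℝ, (∀ i ∈ c.support, k ≤ i) ∧
      ∑ i ∈ c.support, |c i| = 2 ∧ N (∑ i ∈ c.support, c i • x i) ≤ 2 * M ∧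
      q (∑ i ∈ c.support, c i • x i) < ε := by
  intro ε hε k
  obtain ⟨φ, hφ, hlim⟩ := hconv x M hx
  have hNf : ∀ i, N (x (φ (2 * i + 1)) - x (φ (2 * i))) ≤ 2 * M := by
    intro i
    have h1 := map_sub_le_add N (x (φ (2 * i + 1))) (x (φ (2 * i)))
    have h2 := hx (φ (2 * i + 1))
    have h3 := hx (φ (2 * i))
    linarith
  obtain ⟨c, hck, hc0, hc1, hcq⟩ := hmazur (fun i => x (φ (2 * i + 1)) - x (φ (2 * i))) (2 * M)
    (fun n => (hqN _).trans (hNf n)) (fun y => by
      obtain ⟨L, hL⟩ := hlim y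
      have t1 : Tendsto (fun n : ℕ => 2 * n + 1) atTop atTop :=
        tendsto_atTop_mono (fun n => by show n ≤ 2 * n + 1; omega) tendsto_id
      have t2 : Tendsto (fun n : ℕ => 2 * n) atTop atTop :=
        tendsto_atTop_mono (fun n => by show n ≤ 2 * n; omega) tendsto_id
      have h1 := (hL.comp t1).sub (hL.comp t2)
      rw [sub_self] at h1
      refine h1.congr fun n => ?_
      simp only [Function.comp, map_sub]) ε hε k
  obtain ⟨c', hs, habs, hsum⟩ := blocks_comb φ hφ c hc0 hc1 x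
  refine ⟨c', ?_, habs, ?_, ?_⟩
  · intro m hm
    obtain ⟨i, hi, him⟩ := hs m hm
    exact (hck i hi).trans him
  · rw [hsum]
    refine (Finset.le_sum_of_subadditive N (map_zero N).le (fun a b => map_add_le_add N a b) _ _).trans ?_
    calc ∑ i ∈ c.support, N (c i • (x (φ (2 * i + 1)) - x (φ (2 * i))))
        ≤ ∑ i ∈ c.support, c i * (2 * M) := by
          refine Finset.sum_le_sum fun i _ => ?_
          rw [map_smul_eq_mul, Real.norm_of_nonneg (hc0 i)]
          exact mul_le_mul_of_nonneg_left (hNf i) (hc0 i)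
      _ = 2 * M := by rw [← Finset.sum_mul, hc1, one_mul]
  · rw [hsum]
    exact hcq

end Pool.Agent.WRNC
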