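import Pool.Agent.WRNC.Defs

set_option autoImplicit false

namespace Pool.Agent.WRNC

open Filter Topology Set



/-- The completion has no `ℓ₁` sequence if the space has none (perturbation by `δ / 2`). -/
theorem compl_noL1 {V : Type} [SeminormedAddCommGroup V] [NormedSpace ℝ V]
    (h : NoL1 (fun v : V => ‖v‖)) :
    ¬ ∃ (x : ℕ → UniformSpace.Completion V) (M : ℝ) (δ : ℝ), (∀ n, ‖x n‖ ≤ M) ∧ 0 < δ ∧
          ∀ (n : ℕ) (a : ℕ → ℝ),
            δ * ∑ i ∈ Finset.range n, |a i| ≤ ‖∑ i ∈ Finset.range n, a i • x i‖ := by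
  rintro ⟨x, M, δ, hM, hδ, hx⟩
  have hv : ∀ n, ∃ v : V, ‖x n - (v : UniformSpace.Completion V)‖ < δ / 2 := by
    intro n
    have h1 := UniformSpace.Completion.denseRange_coe (α := V)
    obtain ⟨v, hv⟩ := h1.exists_dist_lt (x n) (half_pos hδ)
    exact ⟨v, by rwa [dist_eq_norm] at hv⟩
  choose v hv using hv
  refine h ⟨v, M + δ / 2, δ / 2, fun n => ?_, half_pos hδ, fun n c => ?_⟩
  · change ‖v n‖ ≤ M + δ / 2
    rw [← UniformSpace.Completion.norm_coe (v n)]
    have h1 : ‖(v n : UniformSpace.Completion V)‖ ≤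
        ‖x n‖ + ‖x n - (v n : UniformSpace.Completion V)‖ := by
      have := norm_sub_le (x n) (x n - (v n : UniformSpace.Completion V))
      rwa [sub_sub_cancel] at this
    have := hv n
    have := hM n
    linarith
  · change δ / 2 * ∑ i ∈ Finset.range n, |c i| ≤ ‖∑ i ∈ Finset.range n, c i • v i‖
    rw [← UniformSpace.Completion.norm_coe (∑ i ∈ Finset.range n, c i • v i)]
    have h2 : ((∑ i ∈ Finset.range n, c i • v i : V) : UniformSpace.Completion V) =
        ∑ i ∈ Finset.range n, c i • (v i : UniformSpace.Completion V) := by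
      have h3 := map_sum (UniformSpace.Completion.toComplₗᵢ (𝕜 := ℝ) (E := V))
        (fun i => c i • v i) (Finset.range n)
      simp only [map_smul, UniformSpace.Completion.coe_toComplₗᵢ] at h3
      exact h3
    rw [h2]
    have h4 : ∑ i ∈ Finset.range n, c i • x i =
        ∑ i ∈ Finset.range n, c i • (v i : UniformSpace.Completion V) +
        ∑ i ∈ Finset.range n, c i • (x i - (v i : UniformSpace.Completion V)) := by
      rw [← Finset.sum_add_distrib]
      apply Finset.sum_congr rfl
      intro i _
      rw [← smul_add, add_sub_cancel]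
    have h5 : ‖∑ i ∈ Finset.range n, c i • (x i - (v i : UniformSpace.Completion V))‖ ≤
        δ / 2 * ∑ i ∈ Finset.range n, |c i| := by
      refine (norm_sum_le _ _).trans ?_
      rw [Finset.mul_sum]
      apply Finset.sum_le_sum
      intro i _
      rw [norm_smul, Real.norm_eq_abs, mul_comm]
      exact mul_le_mul_of_nonneg_right (hv i).le (abs_nonneg _)
    have h6 := hx n c
    rw [h4] at h6
    have h7 := norm_add_le (∑ i ∈ Finset.range n, c i • (v i : UniformSpace.Completion V))
      (∑ i ∈ Finset.range n, c i • (x i - (v i : UniformSpace.Completion V)))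
    linarith

end Pool.Agent.WRNC
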