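import Pool.Agent.WRNC.A1
import Pool.Agent.WRNC.A2
import Pool.Agent.WRNC.A3
import Pool.Agent.WRNC.B1
import Pool.Agent.WRNC.B2
import Pool.Agent.WRNC.B3
import Pool.Agent.WRNC.C0
import Pool.Agent.WRNC.C1
import Pool.Agent.WRNC.C2
import Pool.Agent.WRNC.C3
import Pool.Agent.WRNC.C4
import Pool.Agent.WRNC.D1
import Pool.Agent.WRNC.D2
import Pool.Agent.WRNC.D3a
import Pool.Agent.WRNC.D3b
import Pool.Agent.WRNC.D3c
import Pool.Agent.WRNC.D4a
import Pool.Agent.WRNC.D4b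
import Pool.Agent.WRNC.PtWeak

set_option autoImplicit false

namespace Pool.Agent.WRNC

open Filter Topology Set

section Asm

variable {Γ : Type}

theorem l1n_eq_sum (a : Γ →₀ ℝ) (S : Finset Γ) (h : a.support ⊆ S) : l1n a = ∑ γ ∈ S, |a γ| := by
  rw [l1n]
  refine Finset.sum_subset h fun γ _ hγ => ?_
  rw [Finsupp.notMem_support_iff.1 hγ, abs_zero]

/-- `l1n` as a seminorm. -/
noncomputable def pS (Γ : Type) : Seminorm ℝ (Γ →₀ ℝ) := by
  classical
  exact Seminorm.of l1n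
    (fun a b => by
      rw [l1n_eq_sum (a + b) (a.support ∪ b.support) Finsupp.support_add,
        l1n_eq_sum a (a.support ∪ b.support) Finset.subset_union_left,
        l1n_eq_sum b (a.support ∪ b.support) Finset.subset_union_right, ← Finset.sum_add_distrib]
      refine Finset.sum_le_sum fun γ _ => ?_
      rw [Finsupp.add_apply]
      exact abs_add_le _ _)
    (fun c a => by
      rw [l1n_eq_sum (c • a) a.support Finsupp.support_smul, l1n, Finset.mul_sum]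
      refine Finset.sum_congr rfl fun γ _ => ?_
      rw [Finsupp.smul_apply, smul_eq_mul, abs_mul, Real.norm_eq_abs])

theorem pS_apply (a : Γ →₀ ℝ) : pS Γ a = l1n a := rfl

theorem ev_single (h : Γ → Bool) (γ : Γ) : ev h (Finsupp.single γ 1) = bit (h γ) := by
  simp [ev]

theorem bit_abs_le (b : Bool) : |bit b| ≤ 1 := by
  cases b <;> simp [bit]

theorem bit_inj {b c : Bool} (h : bit b = bit c) : b = c := by
  cases b <;> cases c <;> simp [bit] at h ⊢

theorem abs_ev_le (h : Γ → Bool) (a : Γ →₀ ℝ) : |ev h a| ≤ l1n a := by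
  have h1 : ev h a = ∑ γ ∈ a.support, a γ * bit (h γ) := by
    simp only [ev, Finsupp.lsum_apply, Finsupp.sum]
    refine Finset.sum_congr rfl fun γ _ => ?_
    simp [mul_comm]
  rw [h1, l1n]
  refine (Finset.abs_sum_le_sum_abs _ _).trans (Finset.sum_le_sum fun γ _ => ?_)
  rw [abs_mul]
  exact (mul_le_mul_of_nonneg_left (bit_abs_le _) (abs_nonneg _)).trans (mul_one _).le

theorem continuous_ev (a : Γ →₀ ℝ) : Continuous (fun h : Γ → Bool => ev h a) := by
  have h1 : (fun h : Γ → Bool => ev h a) = fun h => ∑ γ ∈ a.support, a γ * bit (h γ) := by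
    funext h
    simp only [ev, Finsupp.lsum_apply, Finsupp.sum]
    refine Finset.sum_congr rfl fun γ _ => ?_
    simp [mul_comm]
  rw [h1]
  refine continuous_finsetSum _ fun γ _ => continuous_const.mul ?_
  exact (continuous_of_discreteTopology (f := bit)).comp (continuous_apply γ)

/-- The linear map into `C(K, ℝ)`, `K` a set of `0-1` functions. -/
noncomputable def uS (K : Set (Γ → Bool)) : (Γ →₀ ℝ) →ₗ[ℝ] C(K, ℝ) where
  toFun a := ⟨fun k => ev k.1 a, (continuous_ev a).comp continuous_subtype_val⟩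
  map_add' a b := by ext k; exact (ev k.1).map_add a b
  map_smul' c a := by ext k; exact (ev k.1).map_smul c a

theorem uS_apply (K : Set (Γ → Bool)) (a : Γ →₀ ℝ) (k : K) : uS K a k = ev k.1 a := rfl

/-- The sup norm seminorm on `c_00`, for a compact `K`. -/
noncomputable def qS (K : Set (Γ → Bool)) [CompactSpace K] : Seminorm ℝ (Γ →₀ ℝ) :=
  (normSeminorm ℝ C(K, ℝ)).comp (uS K)

theorem qS_apply (K : Set (Γ → Bool)) [CompactSpace K] (a : Γ →₀ ℝ) : qS K a = ‖uS K a‖ := rfl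

theorem qS_le_pS (K : Set (Γ → Bool)) [CompactSpace K] (a : Γ →₀ ℝ) : qS K a ≤ pS Γ a := by
  rw [qS_apply, pS_apply]
  have h0 : 0 ≤ l1n a := Finset.sum_nonneg fun _ _ => abs_nonneg _
  rw [ContinuousMap.norm_le _ h0]
  intro k
  rw [uS_apply, Real.norm_eq_abs]
  exact abs_ev_le _ _

theorem abs_ev_le_qS (K : Set (Γ → Bool)) [CompactSpace K] (a : Γ →₀ ℝ) (k : K) :
    |ev k.1 a| ≤ qS K a := by
  rw [qS_apply, ← uS_apply K a k, ← Real.norm_eq_abs]
  exact (uS K a).norm_coe_le_norm k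

/-- Abstract form: no `ℓ₁` sequences in the interpolation space. -/
theorem noL1_interp (K : Set (Γ → Bool)) [CompactSpace K]
    (hconv : ∀ a : ℕ → Γ →₀ ℝ, (∀ k, l1n (a k) ≤ 1) → ∃ φ : ℕ → ℕ, StrictMono φ ∧
      ∀ y : K, ∃ L, Tendsto (fun k => ev y.1 (a (φ k))) atTop (𝓝 L))
    (hpt : ∀ (T : Type) (_ : TopologicalSpace T) (_ : CompactSpace T) (Γ : Type)
      (u : Γ → C(T, ℝ)), (∀ γ, ‖u γ‖ ≤ 1) →
      (∀ t : T, ∀ η : ℝ, 0 < η → {γ | η ≤ |u γ t|}.Finite) →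
      ∀ (μ : StrongDual ℝ C(T, ℝ)) (η : ℝ), 0 < η → {γ | η ≤ |μ (u γ)|}.Finite) :
    NoL1 (fun a : Γ →₀ ℝ => NN (pS Γ) (qS K) a) := by
  rintro ⟨x, M, δ, hM, hδ, hlow⟩
  have hconv' := NN_conv (pS Γ) (qS K)
    (fun n a M h => Nn_decomp (pS Γ) (qS K) n a ((Nn_le_NN (pS Γ) (qS K) n a).trans_lt h))
    diag_gen (fun y : K => ev y.1) (fun y a => abs_ev_le_qS K a y) hconv
  have hblock := blocks (qS K) (NN (pS Γ) (qS K)) (le_NN _ _ (qS_le_pS K))
    (fun y : K => ev y.1) hconv' (fun f C hC h0 ε hε k => by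
      obtain ⟨c, h1, h2, h3, h4⟩ := mazur hpt (fun n => uS K (f n)) C hC h0 ε hε k
      refine ⟨c, h1, h2, h3, ?_⟩
      rw [qS_apply, map_sum]
      simpa only [map_smul] using h4) x M hM
  exact gliding_hump (pS Γ) (qS K) (NN (pS Γ) (qS K)) (Nn (pS Γ) (qS K))
    (Nn_le_left _ _) (Nn_le_right _ _) (Nn_le_NN _ _) (fun a C h => NN_le _ _ a h)
    x M hblock ⟨δ, hδ, hlow⟩

/-- Realisation: a compact set of `0-1` functions with the subsequence property is weak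
Radon-Nikodym. -/
theorem realize (K : Set (Γ → Bool)) [CompactSpace K]
    (hconv : ∀ a : ℕ → Γ →₀ ℝ, (∀ k, l1n (a k) ≤ 1) → ∃ φ : ℕ → ℕ, StrictMono φ ∧
      ∀ y : K, ∃ L, Tendsto (fun k => ev y.1 (a (φ k))) atTop (𝓝 L))
    (hpt : ∀ (T : Type) (_ : TopologicalSpace T) (_ : CompactSpace T) (Γ : Type)
      (u : Γ → C(T, ℝ)), (∀ γ, ‖u γ‖ ≤ 1) →
      (∀ t : T, ∀ η : ℝ, 0 < η → {γ | η ≤ |u γ t|}.Finite) →
      ∀ (μ : StrongDual ℝ C(T, ℝ)) (η : ℝ), 0 < η → {γ | η ≤ |μ (u γ)|}.Finite) :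
    ∃ (E : Type) (_ : NormedAddCommGroup E) (_ : NormedSpace ℝ E) (_ : CompleteSpace E),
      (¬ ∃ (x : ℕ → E) (M : ℝ) (δ : ℝ), (∀ n, ‖x n‖ ≤ M) ∧ 0 < δ ∧
          ∀ (n : ℕ) (a : ℕ → ℝ),
            δ * ∑ i ∈ Finset.range n, |a i| ≤ ‖∑ i ∈ Finset.range n, a i • x i‖) ∧
      ∃ S : Set (WeakDual ℝ E), IsCompact S ∧ Nonempty (K ≃ₜ S) := by
  have hno := noL1_interp K hconv hpt
  let i1 : SeminormedAddCommGroup (Γ →₀ ℝ) :=
    (NN (pS Γ) (qS K)).toAddGroupSeminorm.toSeminormedAddCommGroup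
  have hnorm : ∀ a : Γ →₀ ℝ, ‖a‖ = NN (pS Γ) (qS K) a := fun a => rfl
  let i2 : NormedSpace ℝ (Γ →₀ ℝ) :=
    { (inferInstance : Module ℝ (Γ →₀ ℝ)) with
      norm_smul_le := fun c a => (map_smul_eq_mul (NN (pS Γ) (qS K)) c a).le }
  refine ⟨UniformSpace.Completion (Γ →₀ ℝ), inferInstance, inferInstance, inferInstance,
    compl_noL1 hno, ?_⟩
  refine compl_homeo (fun y : K => ev y.1) 1 (fun y a => ?_) (fun a => ?_) (fun y y' h => ?_)
  · rw [hnorm, one_mul]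
    exact (abs_ev_le_qS K a y).trans (le_NN _ _ (qS_le_pS K) a)
  · exact (continuous_ev a).comp continuous_subtype_val
  · refine Subtype.ext (funext fun γ => bit_inj ?_)
    rw [← ev_single, ← ev_single]
    exact h _

/-- The main theorem under the continuum hypothesis. -/
theorem main_CH
    (hpt : ∀ (T : Type) (_ : TopologicalSpace T) (_ : CompactSpace T) (Γ : Type)
      (u : Γ → C(T, ℝ)), (∀ γ, ‖u γ‖ ≤ 1) →
      (∀ t : T, ∀ η : ℝ, 0 < η → {γ | η ≤ |u γ t|}.Finite) →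
      ∀ (μ : StrongDual ℝ C(T, ℝ)) (η : ℝ), 0 < η → {γ | η ≤ |μ (u γ)|}.Finite)
    (hCH : Cardinal.aleph 1 = (Cardinal.continuum : Cardinal.{0})) :
    ∃ (K : Type) (_ : TopologicalSpace K) (_ : CompactSpace K) (_ : T2Space K) (_ : Infinite K)
      (E : Type) (_ : NormedAddCommGroup E) (_ : NormedSpace ℝ E) (_ : CompleteSpace E),
      (¬ ∃ (x : ℕ → E) (M : ℝ) (δ : ℝ), (∀ n, ‖x n‖ ≤ M) ∧ 0 < δ ∧
          ∀ (n : ℕ) (a : ℕ → ℝ),
            δ * ∑ i ∈ Finset.range n, |a i| ≤ ‖∑ i ∈ Finset.range n, a i • x i‖) ∧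
      (∃ S : Set (WeakDual ℝ E), IsCompact S ∧ Nonempty (K ≃ₜ S)) ∧
      ¬ ∃ (x : ℕ → K) (y : K), Function.Injective x ∧ Tendsto x atTop (𝓝 y) := by
  obtain ⟨I, iL, iW, Zs, iInf, hI, hbd, hZs⟩ := exists_index hCH
  obtain ⟨w, hw⟩ := exists_good Zs (fun ξ W Z h1 h2 => step ξ (hI ξ) W Z h1 h2)
  obtain ⟨hat, hh⟩ := exists_hat w
  have hinj := hat_injective hh
  have hcl := isClosed_range_hat hw hh
  have : CompactSpace (range hat) := isCompact_iff_compactSpace.1 hcl.isCompact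
  have hne : ∀ (ρ : I) (y t : I → Bool), Agree ρ y t → ∀ γ ∉ cone ρ t, hat y γ = hat t γ :=
    fun ρ y t h γ hγ => hat_eq_of_not_cone hh h hγ
  have hconv : ∀ a : ℕ → (I × (I → Bool)) →₀ ℝ, (∀ k, l1n (a k) ≤ 1) →
      ∃ φ : ℕ → ℕ, StrictMono φ ∧
      ∀ y : range hat, ∃ L, Tendsto (fun k => ev y.1 (a (φ k))) atTop (𝓝 L) := by
    intro a ha
    obtain ⟨φ, hφ, h⟩ := conv_subseq hI hat (fun ι _ f hf => diag_real f hf)
      (fun a ρ t t' h => mass_congr a h)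
      (fun a ρ t => abs_part_le hat a ρ t)
      (fun a ρ y t h => ev_sub_part hat hne a h)
      (fun a ha => mass_conv hI hbd (fun ι _ f hf => diag_real f hf) a ha)
      (fun a ha m hm ε hε ρ => finite_cover a ha m hm ε hε ρ) a ha
    refine ⟨φ, hφ, fun y => ?_⟩
    obtain ⟨z, hz⟩ := y.2
    rw [← hz]
    exact h z
  obtain ⟨E, e1, e2, e3, h1, h2⟩ := realize (range hat) hconv hpt
  have : Infinite (I → Bool) := inferInstance
  refine ⟨range hat, inferInstance, inferInstance, inferInstance,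
    (Set.infinite_range_of_injective hinj).to_subtype, E, e1, e2, e3, h1, h2, ?_⟩
  rintro ⟨x, y, hx, hxy⟩
  have hz : ∀ n, ∃ z, hat z = (x n).1 := fun n => (x n).2
  choose z hz using hz
  obtain ⟨y', hy'⟩ := y.2
  refine hat_no_conv hZs hw hh z (fun m n h => hx (Subtype.ext ?_)) y' ?_
  · rw [← hz m, ← hz n, h]
  · have h3 : (fun n => hat (z n)) = fun n => (x n).1 := funext hz
    rw [h3, hy']
    exact (continuous_subtype_val.tendsto y).comp hxy

end Asm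

end Pool.Agent.WRNC
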