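import Pool.Agent.WRNC.Defs

set_option autoImplicit false

namespace Pool.Agent.WRNC

open Filter Topology Set



variable {I : Type} [LinearOrder I] [WellFoundedLT I]

/-- A splitting set for a sequence of naturals tending to infinity. -/
theorem exists_split (g : ℕ → ℕ) (hg : Tendsto g atTop atTop) :
    ∃ A : Set ℕ, (∃ᶠ j in atTop, g j ∈ A) ∧ (∃ᶠ j in atTop, g j ∉ A) := by
  obtain ⟨φ, hφ, hgφ⟩ := strictMono_subseq_of_tendsto_atTop hg
  refine ⟨{m | ∃ k, m = g (φ (2 * k))}, ?_, ?_⟩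
  · rw [frequently_atTop]
    intro a
    refine ⟨φ (2 * a), ?_, a, rfl⟩
    have := hφ.id_le (2 * a)
    simp only [id_eq] at this
    omega
  · rw [frequently_atTop]
    intro a
    refine ⟨φ (2 * a + 1), ?_, ?_⟩
    · have := hφ.id_le (2 * a + 1)
      simp only [id_eq] at this
      omega
    · rintro ⟨k, hk⟩
      have := hgφ.injective (a₁ := 2 * a + 1) (a₂ := 2 * k) hk
      omega

/-- One step of the recursion. -/
theorem step (ξ : I) (hξ : (Iio ξ).Countable) (W : I → (I → Bool) → I → Bool) (Z : ℕ → I)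
    (hloc : ∀ η < ξ, ∀ s t, Agree η s t → W η s = W η t)
    (hcont : ∀ η < ξ, ∀ (s : I → Bool) (ζ : I), ζ < η → ∃ F : Finset I, (∀ κ ∈ F, κ < ζ) ∧
      ∀ ζ' < ζ, (∀ κ ∈ F, ¬ Wrong W s ζ' κ) → Wrong W s ζ' ζ → W η s ζ' = W η s ζ) :
    ∃ v : (I → Bool) → I → Bool,
      (∀ s t, Agree ξ s t → v s = v t) ∧
      (∀ (s : I → Bool) (ζ : I), ζ < ξ → ∃ F : Finset I, (∀ κ ∈ F, κ < ζ) ∧
        ∀ ζ' < ζ, (∀ κ ∈ F, ¬ Wrong W s ζ' κ) → Wrong W s ζ' ζ → v s ζ' = v s ζ) ∧
      (∀ s, (∀ j, Z j < ξ) → (∀ η < ξ, ∀ᶠ j in atTop, ¬ Wrong W s (Z j) η) →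
        (∃ᶠ j in atTop, v s (Z j) = true) ∧ (∃ᶠ j in atTop, v s (Z j) = false)) := by
  classical
  rcases (Iio ξ).eq_empty_or_nonempty with hemp | hne
  · refine ⟨fun _ _ => false, fun _ _ _ => rfl, fun s ζ hζ => ?_, fun s hZ _ => ?_⟩
    · exact absurd (show ζ ∈ Iio ξ from hζ) (by rw [hemp]; simp)
    · exact absurd (show Z 0 ∈ Iio ξ from hZ 0) (by rw [hemp]; simp)
  obtain ⟨e, he⟩ := hξ.exists_eq_range hne
  have hlt : ∀ n, e n < ξ := fun n => by
    have : e n ∈ Iio ξ := by rw [he]; exact mem_range_self n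
    exact this
  have hsurj : ∀ ζ, ζ < ξ → ∃ n, e n = ζ := fun ζ hζ => by
    have : ζ ∈ range e := by rw [← he]; exact hζ
    exact this
  set d : (I → Bool) → I → ℕ := fun s ζ => sInf {n | Wrong W s ζ (e n)} with hd
  have hdne : ∀ s ζ, ζ < ξ → {n | Wrong W s ζ (e n)}.Nonempty := fun s ζ hζ => by
    obtain ⟨n, hn⟩ := hsurj ζ hζ
    exact ⟨n, Or.inl hn⟩
  have hdloc : ∀ s t, Agree ξ s t → d s = d t := by
    intro s t hst
    funext ζ
    have hset : {n | Wrong W s ζ (e n)} = {n | Wrong W t ζ (e n)} := by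
      ext n
      have h1 : W (e n) s = W (e n) t := hloc _ (hlt n) s t fun η hη => hst η (hη.trans (hlt n))
      have h2 : s (e n) = t (e n) := hst _ (hlt n)
      simp only [mem_setOf_eq, Wrong, h1, h2]
    simp only [hd, hset]
  have hA : ∀ g : ℕ → ℕ, ∃ A : Set ℕ, Tendsto g atTop atTop →
      (∃ᶠ j in atTop, g j ∈ A) ∧ (∃ᶠ j in atTop, g j ∉ A) := by
    intro g
    by_cases hg : Tendsto g atTop atTop
    · obtain ⟨A, hA⟩ := exists_split g hg
      exact ⟨A, fun _ => hA⟩
    · exact ⟨∅, fun h => absurd h hg⟩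
  choose A hA using hA
  refine ⟨fun s ζ => if ζ < ξ then decide (d s ζ ∈ A (fun j => d s (Z j))) else false, ?_, ?_, ?_⟩
  · intro s t hst
    simp only [hdloc s t hst]
  · intro s ζ hζ
    set n := d s ζ with hn
    have hF : ∀ i : ℕ, ∃ F : Finset I, (∀ κ ∈ F, κ < ζ) ∧ (ζ < e i →
        ∀ ζ' < ζ, (∀ κ ∈ F, ¬ Wrong W s ζ' κ) → Wrong W s ζ' ζ → W (e i) s ζ' = W (e i) s ζ) := by
      intro i
      by_cases hi : ζ < e i
      · obtain ⟨F, h1, h2⟩ := hcont (e i) (hlt i) s ζ hi
        exact ⟨F, h1, fun _ => h2⟩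
      · exact ⟨∅, by simp, fun h => absurd h hi⟩
    choose F hF1 hF2 using hF
    refine ⟨((Finset.range (n + 1)).image e).filter (· < ζ) ∪ (Finset.range (n + 1)).biUnion F,
      ?_, ?_⟩
    · intro κ hκ
      rw [Finset.mem_union] at hκ
      rcases hκ with hκ | hκ
      · exact (Finset.mem_filter.1 hκ).2
      · obtain ⟨i, -, hi⟩ := Finset.mem_biUnion.1 hκ
        exact hF1 i κ hi
    · intro ζ' hζ' hno hw
      have key : ∀ i ≤ n, (Wrong W s ζ' (e i) ↔ Wrong W s ζ (e i)) := by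
        intro i hi
        have hir : i ∈ Finset.range (n + 1) := Finset.mem_range.2 (by omega)
        rcases lt_trichotomy (e i) ζ with h | h | h
        · constructor
          · intro h'
            refine absurd h' (hno _ ?_)
            rw [Finset.mem_union]
            exact Or.inl (Finset.mem_filter.2 ⟨Finset.mem_image_of_mem _ hir, h⟩)
          · rintro (h' | ⟨h', -⟩)
            · exact absurd h' h.ne
            · exact absurd h' h.asymm
        · rw [h]
          exact ⟨fun _ => Or.inl rfl, fun _ => hw⟩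
        · have hW : W (e i) s ζ' = W (e i) s ζ := by
            refine hF2 i h ζ' hζ' (fun κ hκ => hno κ ?_) hw
            rw [Finset.mem_union]
            exact Or.inr (Finset.mem_biUnion.2 ⟨i, hir, hκ⟩)
          have h1 : e i ≠ ζ' := (hζ'.trans h).ne'
          have h2 : e i ≠ ζ := h.ne'
          simp only [Wrong, h1, h2, false_or, hζ'.trans h, h, true_and, hW]
      have hdeq : d s ζ' = d s ζ := by
        have hnmem : Wrong W s ζ (e n) := Nat.sInf_mem (hdne s ζ hζ)
        have hnmem' : Wrong W s ζ' (e n) := (key n le_rfl).2 hnmem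
        refine le_antisymm (Nat.sInf_le hnmem') ?_
        by_contra hlt'
        push Not at hlt'
        have h3 : Wrong W s ζ' (e (d s ζ')) := Nat.sInf_mem (hdne s ζ' (hζ'.trans hζ))
        have h4 : Wrong W s ζ (e (d s ζ')) := (key _ hlt'.le).1 h3
        have h5 : d s ζ ≤ d s ζ' := Nat.sInf_le h4
        omega
      have hl' : ζ' < ξ := hζ'.trans hζ
      simp only [hl', hζ, if_true, hdeq]
  · intro s hZ hev
    have hten : Tendsto (fun j => d s (Z j)) atTop atTop := by
      rw [tendsto_atTop]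
      intro N
      have h1 : ∀ᶠ j in atTop, ∀ i ∈ Finset.range N, ¬ Wrong W s (Z j) (e i) := by
        rw [Filter.eventually_all_finset]
        intro i _
        exact hev (e i) (hlt i)
      filter_upwards [h1] with j hj
      by_contra hlt'
      push Not at hlt'
      exact hj _ (Finset.mem_range.2 hlt') (Nat.sInf_mem (hdne s (Z j) (hZ j)))
    obtain ⟨h1, h2⟩ := hA _ hten
    refine ⟨h1.mono fun j hj => ?_, h2.mono fun j hj => ?_⟩
    · simp only [hZ j, if_true]
      exact decide_eq_true hj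
    · simp only [hZ j, if_true]
      exact decide_eq_false hj

end Pool.Agent.WRNC
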