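import Pool.Agent.WRNC.Defs

set_option autoImplicit false

namespace Pool.Agent.WRNC

open Filter Topology Set



/-- A compact space of functionals on `V` embeds into the dual of the completion. -/
theorem compl_homeo {V : Type} [SeminormedAddCommGroup V] [NormedSpace ℝ V]
    {K : Type} [TopologicalSpace K] [CompactSpace K] [T2Space K]
    (F : K → V →ₗ[ℝ] ℝ) (C : ℝ) (hF : ∀ y a, |F y a| ≤ C * ‖a‖)
    (hcont : ∀ a, Continuous (fun y => F y a))
    (hsep : ∀ y y', (∀ a, F y a = F y' a) → y = y') :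
    ∃ S : Set (WeakDual ℝ (UniformSpace.Completion V)), IsCompact S ∧ Nonempty (K ≃ₜ S) := by
  classical
  let e : V →ₗ[ℝ] UniformSpace.Completion V :=
    (UniformSpace.Completion.toComplL : V →L[ℝ] UniformSpace.Completion V).toLinearMap
  have he : ∀ a : V, e a = (a : UniformSpace.Completion V) := fun a => rfl
  have hen : ∀ a : V, ‖e a‖ = ‖a‖ := fun a => by rw [he]; exact UniformSpace.Completion.norm_coe a
  have hdense : DenseRange e := by
    have h1 : DenseRange (fun a : V => (a : UniformSpace.Completion V)) :=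
      UniformSpace.Completion.denseRange_coe
    exact h1
  let Ψ : K → UniformSpace.Completion V →L[ℝ] ℝ := fun y => (F y).extendOfNorm e
  have hb : ∀ y, ∀ a : V, ‖F y a‖ ≤ C * ‖e a‖ := fun y a => by
    rw [hen, Real.norm_eq_abs]; exact hF y a
  have hΨe : ∀ y a, Ψ y (e a) = F y a := fun y a =>
    LinearMap.extendOfNorm_eq hdense ⟨C, hb y⟩ a
  have hΨn : ∀ y x, ‖Ψ y x‖ ≤ C * ‖x‖ := fun y x =>
    LinearMap.norm_extendOfNorm_apply_le hdense C (hb y) x
  let Φ : K → WeakDual ℝ (UniformSpace.Completion V) := fun y => StrongDual.toWeakDual (Ψ y)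
  have hΦ : ∀ y x, Φ y x = Ψ y x := fun y x => rfl
  have hcΨ : ∀ x, Continuous fun y => Ψ y x := by
    intro x
    refine continuous_of_uniform_approx_of_continuous ?_
    intro u hu
    obtain ⟨ε, hε, hεu⟩ := Metric.mem_uniformity_dist.1 hu
    obtain ⟨a, ha⟩ := Metric.denseRange_iff.1 hdense x (ε / (|C| + 1)) (by positivity)
    refine ⟨fun y => F y a, hcont a, fun y => hεu ?_⟩
    change dist (Ψ y x) (F y a) < ε
    rw [← hΨe y a, dist_eq_norm, ← map_sub]
    rw [dist_eq_norm] at ha
    have h2 := hΨn y (x - e a)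
    have h3 : C * ‖x - e a‖ ≤ |C| * ‖x - e a‖ :=
      mul_le_mul_of_nonneg_right (le_abs_self C) (norm_nonneg _)
    rw [lt_div_iff₀ (by positivity)] at ha
    nlinarith [norm_nonneg (x - e a)]
  have hc : Continuous Φ := by
    refine WeakDual.continuous_of_continuous_eval fun x => ?_
    exact hcΨ x
  have hinj : Function.Injective Φ := by
    intro y y' h
    refine hsep y y' fun a => ?_
    rw [← hΨe y a, ← hΨe y' a, ← hΦ, ← hΦ, h]
  refine ⟨Set.range Φ, isCompact_range hc, ⟨?_⟩⟩
  exact Continuous.homeoOfEquivCompactToT2 (f := Equiv.ofInjective Φ hinj)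
    (hc.subtype_mk _)

end Pool.Agent.WRNC
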