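import Mathlib

set_option autoImplicit false

namespace Pool.Agent.WRNC

open Filter Topology Set

section Tree

variable {I : Type} [LinearOrder I]

/-- `s` and `t` agree below `ξ`. -/
def Agree (ξ : I) (s t : I → Bool) : Prop := ∀ η < ξ, s η = t η

/-- `ζ` is the first place where `s` and `t` differ. -/
def IsDel (s t : I → Bool) (ζ : I) : Prop := Agree ζ s t ∧ s ζ ≠ t ζ

/-- The class `ζ` (points whose first difference with `s` is `ζ`) is wrong at `η`. -/
def Wrong (w : I → (I → Bool) → I → Bool) (s : I → Bool) (ζ η : I) : Prop :=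
  η = ζ ∨ (ζ < η ∧ w η s ζ ≠ s η)

/-- The properties of the splitting data `w`. -/
structure Good (Zs : I → ℕ → I) (w : I → (I → Bool) → I → Bool) : Prop where
  loc : ∀ ξ s t, Agree ξ s t → w ξ s = w ξ t
  cont : ∀ ξ s ζ, ζ < ξ → ∃ F : Finset I, (∀ η ∈ F, η < ζ) ∧ ∀ ζ' < ζ,
    (∀ η ∈ F, ¬ Wrong w s ζ' η) → Wrong w s ζ' ζ → w ξ s ζ' = w ξ s ζ
  split : ∀ ξ s, (∀ j, Zs ξ j < ξ) → (∀ η < ξ, ∀ᶠ j in atTop, ¬ Wrong w s (Zs ξ j) η) →
    (∃ᶠ j in atTop, w ξ s (Zs ξ j) = true) ∧ (∃ᶠ j in atTop, w ξ s (Zs ξ j) = false)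

/-- `hat y` is the point of the compact space attached to the branch `y`:
its coordinate at the node `(ξ, s)` is `y ξ` if `y` passes through the node and
`w ξ s ζ` if `ζ < ξ` is the first difference of `y` and `s`. -/
structure IsHat (w : I → (I → Bool) → I → Bool)
    (hat : (I → Bool) → I × (I → Bool) → Bool) : Prop where
  agree : ∀ y ξ s, Agree ξ y s → hat y (ξ, s) = y ξ
  del : ∀ y ξ s ζ, ζ < ξ → IsDel y s ζ → hat y (ξ, s) = w ξ s ζ

end Tree

section Ev

variable {Γ : Type}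

/-- The real value of a bit. -/
def bit (b : Bool) : ℝ := if b then 1 else 0

/-- Evaluation of a finitely supported combination of coordinates at a 0-1 function. -/
noncomputable def ev (h : Γ → Bool) : (Γ →₀ ℝ) →ₗ[ℝ] ℝ :=
  Finsupp.lsum ℝ (fun γ => (bit (h γ)) • (LinearMap.id : ℝ →ₗ[ℝ] ℝ))

/-- The `ℓ₁` norm of a finitely supported function. -/
noncomputable def l1n (a : Γ →₀ ℝ) : ℝ := ∑ γ ∈ a.support, |a γ|

end Ev

section Interp

variable {V : Type} [AddCommGroup V] [Module ℝ V]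

/-- The interpolation seminorms `N_n(a) = inf_b (2^(-n) p(b) + 2^n q(a-b))`. -/
noncomputable def Nn (p q : Seminorm ℝ V) (n : ℕ) : Seminorm ℝ V :=
  (((1 / 2 : NNReal) ^ n) • p) ⊓ (((2 : NNReal) ^ n) • q)

/-- The interpolation seminorm `N = sup_n N_n`. -/
noncomputable def NN (p q : Seminorm ℝ V) : Seminorm ℝ V := ⨆ n, Nn p q n

/-- No `ℓ₁` sequence for a seminorm. -/
def NoL1 (N : V → ℝ) : Prop :=
  ¬ ∃ (a : ℕ → V) (M δ : ℝ), (∀ n, N (a n) ≤ M) ∧ 0 < δ ∧
    ∀ (n : ℕ) (c : ℕ → ℝ), δ * ∑ i ∈ Finset.range n, |c i| ≤ N (∑ i ∈ Finset.range n, c i • a i)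

end Interp


section ConeDefs

variable {I : Type} [LinearOrder I]

/-- The cone of the node `(ρ, t)`. -/
def cone (ρ : I) (t : I → Bool) : Set (I × (I → Bool)) := {γ | ρ ≤ γ.1 ∧ Agree ρ γ.2 t}

open Classical in
/-- The mass of `a` in the cone of `(ρ, t)`. -/
noncomputable def mass (a : (I × (I → Bool)) →₀ ℝ) (ρ : I) (t : I → Bool) : ℝ :=
  ∑ γ ∈ a.support.filter (fun γ => γ ∈ cone ρ t), |a γ|

open Classical in
/-- The part of `ev (hat t) a` outside of the cone of `(ρ, t)`. -/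
noncomputable def part (hat : (I → Bool) → I × (I → Bool) → Bool)
    (a : (I × (I → Bool)) →₀ ℝ) (ρ : I) (t : I → Bool) : ℝ :=
  ∑ γ ∈ a.support.filter (fun γ => γ ∉ cone ρ t), a γ * bit (hat t γ)

end ConeDefs

end Pool.Agent.WRNC
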